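import Pool.Agent.Lib.MP_6bc78b_nt.GP.H69.RGT

/-! Project GP10: the right line for a general window `G`, with a Dirichlet polynomial. -/

set_option autoImplicit false

open Complex Filter Topology MeasureTheory ArithmeticFunction Set
open scoped ENNReal

namespace Pool.Agent.Lib.MP_6bc78b_nt.GP.H61B

open Pool.Agent.Lib.MP_6bc78b_nt.MS Pool.Agent.Lib.MP_6bc78b_nt.MS.P1
open Pool.Agent.Lib.MP_6bc78b_nt.GP Pool.Agent.Lib.MP_6bc78b_nt.GP.H69

/-- `S_E(t)` for the weight `w`. -/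
noncomputable def SEG (A B δ t : ℝ) (w : ℝ → ℝ) : ℂ :=
  ∫ u : ℝ, ((w u * Real.exp (u / 2) : ℝ) : ℂ) * EE A B (zp u δ) * Complex.exp (u * t * I)

/-- The right line is `S_E`: the window `G` is the transform of `w`. -/
theorem rgt_gen3 (h1 : GAMIStatement) (h2 : DX2Statement) (A B δ t : ℝ) (hδ : 0 < δ)
    (hδ2 : δ ≤ 1 / 2) (w : ℝ → ℝ)
    (hwint : Integrable (fun u : ℝ => ((w u * Real.exp (-u) : ℝ) : ℂ))) (G : ℂ → ℂ)
    (hGc : Continuous (fun y : ℝ => G (((3 / 2 : ℝ) : ℂ) + y * I))) (M : ℝ)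
    (hGb : ∀ y : ℝ, ‖G (((3 / 2 : ℝ) : ℂ) + y * I)‖ ≤ M)
    (hrep : ∀ y : ℝ, ∫ u : ℝ, (w u : ℂ) *
      Complex.exp (-(u * ((((3 / 2 : ℝ) : ℂ) + y * I) - 1 / 2 - t * I))) =
        G (((3 / 2 : ℝ) : ℂ) + y * I)) :
    Integrable (fun y : ℝ => LSeries (fun n => ((bn A B n : ℝ) : ℂ)) ((3 / 2 : ℝ) + y * I) *
      om0 δ ((3 / 2 : ℝ) + y * I) * G ((3 / 2 : ℝ) + y * I)) ∧
    SEG A B δ t w =
      VI (3 / 2) (fun s => LSeries (fun n => ((bn A B n : ℝ) : ℂ)) s * om0 δ s * G s) ∧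
    Integrable (fun u : ℝ => ((w u * Real.exp (u / 2) : ℝ) : ℂ) * EE A B (zp u δ) *
      Complex.exp (u * t * I)) := by
  set a : ℕ → ℂ := fun n => ((bn A B n : ℝ) : ℂ) with ha
  have hsum : Summable (fun n : ℕ => ‖a n‖ * (n : ℝ) ^ (-(3 / 2 : ℝ))) := by
    refine ((h2 A B).2.1 (3 / 2) (by norm_num)).congr fun n => ?_
    show |bn A B n| * (n : ℝ) ^ (-(3 / 2 : ℝ)) = ‖((bn A B n : ℝ) : ℂ)‖ * (n : ℝ) ^ (-(3 / 2 : ℝ))
    rw [Complex.norm_real, Real.norm_eq_abs]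
  have hom : Integrable (fun y : ℝ => om0 δ (((3 / 2 : ℝ) : ℂ) + y * I)) := by
    refine ((h1 (3 / 2) (zn 1 0 δ) (by norm_num) (zn_re 1 one_ne_zero 0 δ hδ hδ2)).1).congr
      (ae_of_all _ fun y => ?_)
    show Complex.Gamma (((3 / 2 : ℝ) : ℂ) + y * I) * zn 1 0 δ ^ (-(((3 / 2 : ℝ) : ℂ) + y * I)) = _
    rw [zn_cpow 1 one_ne_zero 0 δ hδ hδ2]
    simp
  -- the factor in `u`
  have hexp : ∀ u : ℝ, Integrable (fun y : ℝ => om0 δ (((3 / 2 : ℝ) : ℂ) + y * I) *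
      Complex.exp (-(u * (((3 / 2 : ℝ) : ℂ) + y * I)))) := by
    intro u
    have hc : Continuous (fun y : ℝ => Complex.exp (-(u * (((3 / 2 : ℝ) : ℂ) + y * I)))) := by
      fun_prop
    have hb : ∀ y : ℝ, ‖Complex.exp (-(u * (((3 / 2 : ℝ) : ℂ) + y * I)))‖ ≤
        Real.exp (-(u * (3 / 2))) := by
      intro y
      rw [Complex.norm_exp]
      apply le_of_eq
      congr 1
      simp
    refine (hom.bdd_mul hc.aestronglyMeasurable (ae_of_all _ hb)).congr (ae_of_all _ fun y => ?_)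
    show _ * _ = _ * _
    ring
  have hg : Integrable (fun y : ℝ => om0 δ (((3 / 2 : ℝ) : ℂ) + y * I) *
      G (((3 / 2 : ℝ) : ℂ) + y * I)) := by
    refine (hom.bdd_mul hGc.aestronglyMeasurable
      (ae_of_all _ hGb)).congr (ae_of_all _ fun y => ?_)
    show _ * _ = _ * _
    ring
  have hfirst : Integrable (fun y : ℝ => LSeries a ((3 / 2 : ℝ) + y * I) *
      om0 δ ((3 / 2 : ℝ) + y * I) * G ((3 / 2 : ℝ) + y * I)) := by
    refine (SWAP.swap (3 / 2) a (fun s => om0 δ s * G s) hsum hg).1.congr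
      (ae_of_all _ fun y => ?_)
    show _ * (_ * _) = _ * _ * _
    ring
  -- Fubini
  have hF : Integrable (fun y : ℝ => LSeries a (((3 / 2 : ℝ) : ℂ) + y * I) *
      om0 δ (((3 / 2 : ℝ) : ℂ) + y * I)) := (SWAP.swap (3 / 2) a (fun s => om0 δ s) hsum hom).1
  set K : ℝ → ℝ → ℂ := fun y u => (LSeries a (((3 / 2 : ℝ) : ℂ) + y * I) *
      om0 δ (((3 / 2 : ℝ) : ℂ) + y * I)) * ((w u : ℂ) *
        Complex.exp (-(u * ((((3 / 2 : ℝ) : ℂ) + y * I) - 1 / 2 - t * I)))) with hK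
  have hKint : Integrable (Function.uncurry K) (volume.prod volume) := by
    have hb := hF.mul_prod hwint
    have hc : Continuous (fun z : ℝ × ℝ => Complex.exp (-(((z.2 * (z.1 - t) : ℝ) : ℂ) * I))) := by
      fun_prop
    have hn : ∀ z : ℝ × ℝ, ‖Complex.exp (-(((z.2 * (z.1 - t) : ℝ) : ℂ) * I))‖ ≤ 1 := by
      intro z
      rw [Complex.norm_exp]
      simp
    refine (hb.bdd_mul hc.aestronglyMeasurable (ae_of_all _ hn)).congr (ae_of_all _ fun z => ?_)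
    show Complex.exp (-(((z.2 * (z.1 - t) : ℝ) : ℂ) * I)) *
      ((LSeries a (((3 / 2 : ℝ) : ℂ) + z.1 * I) * om0 δ (((3 / 2 : ℝ) : ℂ) + z.1 * I)) *
      ((w z.2 * Real.exp (-z.2) : ℝ) : ℂ))
      = (LSeries a (((3 / 2 : ℝ) : ℂ) + z.1 * I) *
      om0 δ (((3 / 2 : ℝ) : ℂ) + z.1 * I)) * ((w z.2 : ℂ) *
        Complex.exp (-(z.2 * ((((3 / 2 : ℝ) : ℂ) + z.1 * I) - 1 / 2 - t * I))))
    have e : Complex.exp (-(z.2 * ((((3 / 2 : ℝ) : ℂ) + z.1 * I) - 1 / 2 - t * I))) =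
        Complex.exp (-(((z.2 * (z.1 - t) : ℝ) : ℂ) * I)) * ((Real.exp (-z.2) : ℝ) : ℂ) := by
      rw [Complex.ofReal_exp, ← Complex.exp_add]
      congr 1
      push_cast
      ring
    rw [e, Complex.ofReal_mul (w z.2)]
    ring
  have hL : ∀ y : ℝ, LSeries a (((3 / 2 : ℝ) : ℂ) + y * I) * om0 δ (((3 / 2 : ℝ) : ℂ) + y * I) *
      G (((3 / 2 : ℝ) : ℂ) + y * I) = ∫ u : ℝ, K y u := by
    intro y
    show _ = ∫ u : ℝ, (LSeries a (((3 / 2 : ℝ) : ℂ) + y * I) *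
      om0 δ (((3 / 2 : ℝ) : ℂ) + y * I)) * ((w u : ℂ) *
        Complex.exp (-(u * ((((3 / 2 : ℝ) : ℂ) + y * I) - 1 / 2 - t * I))))
    rw [integral_const_mul]
    congr 1
    exact (hrep y).symm
  have hpi : (2 * Real.pi : ℂ) ≠ 0 := by
    exact_mod_cast (by positivity : (2 * Real.pi : ℝ) ≠ 0)
  have hR : ∀ u : ℝ, ∫ y : ℝ, K y u =
      (2 * Real.pi : ℂ) * (((w u * Real.exp (u / 2) : ℝ) : ℂ) * EE A B (zp u δ) *
        Complex.exp (u * t * I)) := by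
    intro u
    have e1 : (fun y : ℝ => K y u) = fun y : ℝ =>
        ((w u : ℂ) * Complex.exp (u / 2 + u * t * I)) *
          (LSeries a (((3 / 2 : ℝ) : ℂ) + y * I) * (om0 δ (((3 / 2 : ℝ) : ℂ) + y * I) *
            Complex.exp (-(u * (((3 / 2 : ℝ) : ℂ) + y * I))))) := by
      funext y
      show (LSeries a (((3 / 2 : ℝ) : ℂ) + y * I) *
        om0 δ (((3 / 2 : ℝ) : ℂ) + y * I)) * ((w u : ℂ) *
        Complex.exp (-(u * ((((3 / 2 : ℝ) : ℂ) + y * I) - 1 / 2 - t * I)))) = _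
      have e : Complex.exp (-(u * ((((3 / 2 : ℝ) : ℂ) + y * I) - 1 / 2 - t * I))) =
          Complex.exp (u / 2 + u * t * I) *
            Complex.exp (-(u * (((3 / 2 : ℝ) : ℂ) + y * I))) := by
        rw [← Complex.exp_add]
        congr 1
        ring
      rw [e]
      ring
    have hs := (SWAP.swap (3 / 2) a (fun s => om0 δ s * Complex.exp (-(u * s))) hsum (hexp u)).2.2
    have hE : (∑' n : ℕ, if n = 0 then 0 else
        a n * VI (3 / 2) (fun s => (om0 δ s * Complex.exp (-(u * s))) * (n : ℂ) ^ (-s))) =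
        EE A B (zp u δ) := by
      unfold EE
      refine tsum_congr fun n => ?_
      by_cases hn : n = 0
      · subst hn
        simp [bn]
      · rw [if_neg hn]
        congr 1
        rw [exp_zp]
        rw [(h1 (3 / 2) (zn n u δ) (by norm_num) (zn_re n hn u δ hδ hδ2)).2]
        congr 1
        funext s
        exact (zn_cpow n hn u δ hδ hδ2 s).symm
    rw [e1, integral_const_mul]
    have hI : ∫ y : ℝ, (LSeries a (((3 / 2 : ℝ) : ℂ) + y * I) *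
        (om0 δ (((3 / 2 : ℝ) : ℂ) + y * I) *
            Complex.exp (-(u * (((3 / 2 : ℝ) : ℂ) + y * I))))) =
        (2 * Real.pi : ℂ) * EE A B (zp u δ) := by
      rw [← hE, ← hs]
      unfold VI
      rw [← mul_assoc, mul_one_div_cancel hpi, one_mul]
    rw [hI]
    have e2 : ((w u * Real.exp (u / 2) : ℝ) : ℂ) = (w u : ℂ) * Complex.exp (u / 2) := by
      rw [Complex.ofReal_mul, Complex.ofReal_exp]
      congr 2
      push_cast
      rfl
    rw [e2, Complex.exp_add]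
    ring
  have hthird : Integrable (fun u : ℝ => ((w u * Real.exp (u / 2) : ℝ) : ℂ) * EE A B (zp u δ) *
      Complex.exp (u * t * I)) := by
    have h3 := (hKint.integral_prod_right).const_mul ((2 * Real.pi : ℂ)⁻¹)
    refine h3.congr (ae_of_all _ fun u => ?_)
    show (2 * Real.pi : ℂ)⁻¹ * ∫ y : ℝ, K y u = _
    rw [hR u, ← mul_assoc, inv_mul_cancel₀ hpi, one_mul]
  refine ⟨hfirst, ?_, hthird⟩
  unfold VI SEG
  have hfin : (∫ y : ℝ, (fun s => LSeries a s * om0 δ s * G s)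
      (((3 / 2 : ℝ) : ℂ) + y * I)) =
      (2 * Real.pi : ℂ) * ∫ u : ℝ, ((w u * Real.exp (u / 2) : ℝ) : ℂ) * EE A B (zp u δ) *
        Complex.exp (u * t * I) := by
    rw [← integral_const_mul]
    calc (∫ y : ℝ, (fun s => LSeries a s * om0 δ s * G s) (((3 / 2 : ℝ) : ℂ) + y * I))
        = ∫ y : ℝ, ∫ u : ℝ, K y u := integral_congr_ae (ae_of_all _ hL)
      _ = ∫ u : ℝ, ∫ y : ℝ, K y u := integral_integral_swap hKint
      _ = _ := integral_congr_ae (ae_of_all _ hR)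
  rw [hfin, ← mul_assoc, one_div_mul_cancel hpi, one_mul]

/-- `B(s) = ∑ β(m) m^(-s)`. -/
noncomputable def polyB (Fs : Finset ℕ) (β : ℕ → ℝ) (s : ℂ) : ℂ :=
  ∑ m ∈ Fs, (β m : ℂ) * (m : ℂ) ^ (-s)

/-- `S_E(t)` for the weight `w` and the coefficients `b * β`. -/
noncomputable def SEB (A B δ t : ℝ) (w : ℝ → ℝ) (Fs : Finset ℕ) (β : ℕ → ℝ) : ℂ :=
  ∫ u : ℝ, ((w u * Real.exp (u / 2) : ℝ) : ℂ) *
    (∑ m ∈ Fs, (β m : ℂ) * EE A B (m * zp u δ)) * Complex.exp (u * t * I)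

/-- Multiplication of the frequency by `m` is a shift by `log m`. -/
lemma EE_shift (A B u δ : ℝ) (m : ℕ) (hm : 1 ≤ m) :
    EE A B (zp (u + Real.log m) δ) = EE A B (m * zp u δ) := by
  unfold EE
  refine tsum_congr fun n => ?_
  congr 1
  have hm0 : (0 : ℝ) < m := by exact_mod_cast hm
  have e1 : Complex.exp (((u + Real.log m : ℝ) : ℂ) - δ * I) =
      (m : ℂ) * Complex.exp ((u : ℂ) - δ * I) := by
    have e2 : (((u + Real.log m : ℝ) : ℂ) - δ * I) =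
        ((Real.log m : ℝ) : ℂ) + ((u : ℂ) - δ * I) := by
      push_cast
      ring
    rw [e2, Complex.exp_add, ← Complex.ofReal_exp, Real.exp_log hm0, Complex.ofReal_natCast]
  have e3 : -((n : ℂ) * zp (u + Real.log m) δ) =
      -((n : ℂ) * (m * zp u δ)) + ((-((n : ℤ) * ((m : ℤ) - 1)) : ℤ) : ℂ) * (2 * Real.pi * I) := by
    unfold zp
    rw [e1]
    push_cast
    ring
  rw [e3, Complex.exp_add, Complex.exp_int_mul_two_pi_mul_I, mul_one]

lemma cpow_shift (m : ℕ) (hm : 1 ≤ m) (t : ℝ) (s : ℂ) :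
    (m : ℂ) ^ (-s) = (m : ℂ) ^ (-(1 / 2 + t * I : ℂ)) *
      Complex.exp (-(((Real.log m : ℝ) : ℂ) * (s - 1 / 2 - t * I))) := by
  have hm0 : (m : ℂ) ≠ 0 := by exact_mod_cast (by omega : m ≠ 0)
  have hl : Complex.log (m : ℂ) = ((Real.log m : ℝ) : ℂ) := by
    rw [← Complex.ofReal_natCast, Complex.ofReal_log (by positivity)]
  rw [Complex.cpow_def_of_ne_zero hm0, Complex.cpow_def_of_ne_zero hm0, ← Complex.exp_add, hl]
  congr 1
  ring

/-- One frequency. -/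
lemma rgt_one (h1 : GAMIStatement) (h2 : DX2Statement) (A B δ t : ℝ) (hδ : 0 < δ)
    (hδ2 : δ ≤ 1 / 2) (w : ℝ → ℝ)
    (hwint : Integrable (fun u : ℝ => ((w u * Real.exp (-u) : ℝ) : ℂ))) (G : ℂ → ℂ)
    (hGc : Continuous (fun y : ℝ => G (((3 / 2 : ℝ) : ℂ) + y * I))) (M : ℝ)
    (hGb : ∀ y : ℝ, ‖G (((3 / 2 : ℝ) : ℂ) + y * I)‖ ≤ M)
    (hrep : ∀ y : ℝ, ∫ u : ℝ, (w u : ℂ) *
      Complex.exp (-(u * ((((3 / 2 : ℝ) : ℂ) + y * I) - 1 / 2 - t * I))) =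
        G (((3 / 2 : ℝ) : ℂ) + y * I)) (m : ℕ) (hm : 1 ≤ m) :
    Integrable (fun y : ℝ => LSeries (fun n => ((bn A B n : ℝ) : ℂ)) ((3 / 2 : ℝ) + y * I) *
      om0 δ ((3 / 2 : ℝ) + y * I) * ((m : ℂ) ^ (-(((3 / 2 : ℝ) : ℂ) + y * I)) *
        G ((3 / 2 : ℝ) + y * I))) ∧
    (∫ u : ℝ, ((w u * Real.exp (u / 2) : ℝ) : ℂ) * EE A B (m * zp u δ) *
      Complex.exp (u * t * I)) =
      VI (3 / 2) (fun s => LSeries (fun n => ((bn A B n : ℝ) : ℂ)) s * om0 δ s *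
        ((m : ℂ) ^ (-s) * G s)) ∧
    Integrable (fun u : ℝ => ((w u * Real.exp (u / 2) : ℝ) : ℂ) * EE A B (m * zp u δ) *
      Complex.exp (u * t * I)) := by
  have hm0 : (0 : ℝ) < m := by exact_mod_cast hm
  have hmC : (m : ℂ) ≠ 0 := by exact_mod_cast (by omega : m ≠ 0)
  obtain ⟨lm, hlm⟩ : ∃ lm : ℝ, lm = Real.log m := ⟨_, rfl⟩
  have hlm0 : 0 ≤ lm := by rw [hlm]; exact Real.log_nonneg (by exact_mod_cast hm)
  set G' : ℂ → ℂ := fun s => Complex.exp (-((lm : ℂ) * (s - 1 / 2 - t * I))) * G s with hG'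
  set w' : ℝ → ℝ := fun v => w (v - lm) with hw'
  have a1 : Integrable (fun u : ℝ => ((w' u * Real.exp (-u) : ℝ) : ℂ)) := by
    have h3 := (hwint.comp_sub_right lm).const_mul (((Real.exp (-lm) : ℝ) : ℂ))
    refine h3.congr (ae_of_all _ fun u => ?_)
    show ((Real.exp (-lm) : ℝ) : ℂ) * ((w (u - lm) * Real.exp (-(u - lm)) : ℝ) : ℂ) =
      ((w (u - lm) * Real.exp (-u) : ℝ) : ℂ)
    rw [← Complex.ofReal_mul]
    congr 1
    have e : Real.exp (-u) = Real.exp (-lm) * Real.exp (-(u - lm)) := by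
      rw [← Real.exp_add]
      congr 1
      ring
    rw [e]
    ring
  have a2 : Continuous (fun y : ℝ => G' (((3 / 2 : ℝ) : ℂ) + y * I)) := by
    rw [hG']
    exact (by fun_prop : Continuous (fun y : ℝ =>
      Complex.exp (-((lm : ℂ) * ((((3 / 2 : ℝ) : ℂ) + y * I) - 1 / 2 - t * I))))).mul hGc
  have a3 : ∀ y : ℝ, ‖G' (((3 / 2 : ℝ) : ℂ) + y * I)‖ ≤ M := by
    intro y
    rw [hG']
    show ‖Complex.exp (-((lm : ℂ) * ((((3 / 2 : ℝ) : ℂ) + y * I) - 1 / 2 - t * I))) *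
      G (((3 / 2 : ℝ) : ℂ) + y * I)‖ ≤ M
    rw [norm_mul, Complex.norm_exp]
    have e : (-((lm : ℂ) * ((((3 / 2 : ℝ) : ℂ) + y * I) - 1 / 2 - t * I))).re = -lm := by
      simp
      ring
    rw [e]
    have h3 : Real.exp (-lm) ≤ 1 := Real.exp_le_one_iff.mpr (by linarith)
    have h4 := hGb y
    have h5 : 0 ≤ ‖G (((3 / 2 : ℝ) : ℂ) + y * I)‖ := norm_nonneg _
    nlinarith [Real.exp_pos (-lm)]
  have a4 : ∀ y : ℝ, ∫ u : ℝ, (w' u : ℂ) *
      Complex.exp (-(u * ((((3 / 2 : ℝ) : ℂ) + y * I) - 1 / 2 - t * I))) =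
        G' (((3 / 2 : ℝ) : ℂ) + y * I) := by
    intro y
    obtain ⟨c, hc⟩ : ∃ c : ℂ, c = (((3 / 2 : ℝ) : ℂ) + y * I) - 1 / 2 - t * I := ⟨_, rfl⟩
    have h3 := hrep y
    rw [← hc] at h3
    rw [hG', hw']
    simp only
    rw [← hc, ← h3, ← integral_const_mul]
    rw [← integral_sub_right_eq_self (fun u : ℝ => Complex.exp (-((lm : ℂ) * c)) *
      ((w u : ℂ) * Complex.exp (-(u * c)))) lm]
    refine integral_congr_ae (ae_of_all _ fun u => ?_)
    show (w (u - lm) : ℂ) * Complex.exp (-(u * c)) = Complex.exp (-((lm : ℂ) * c)) *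
      ((w (u - lm) : ℂ) * Complex.exp (-(((u - lm : ℝ) : ℂ) * c)))
    have e : Complex.exp (-(u * c)) = Complex.exp (-((lm : ℂ) * c)) *
        Complex.exp (-(((u - lm : ℝ) : ℂ) * c)) := by
      rw [← Complex.exp_add]
      congr 1
      push_cast
      ring
    rw [e]
    ring
  obtain ⟨b1, b2, b3⟩ := rgt_gen3 h1 h2 A B δ t hδ hδ2 w' a1 G' a2 M a3 a4
  obtain ⟨cm, hcm⟩ : ∃ cm : ℂ, cm = (m : ℂ) ^ (-(1 / 2 + t * I : ℂ)) := ⟨_, rfl⟩
  have hsh : ∀ s : ℂ, (m : ℂ) ^ (-s) * G s = cm * G' s := by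
    intro s
    rw [cpow_shift m hm t s, ← hcm, ← hlm, hG']
    ring
  -- the shift in `u`
  have hu : ∀ u : ℝ, cm * (((w' (u + lm) * Real.exp ((u + lm) / 2) : ℝ) : ℂ) *
      EE A B (zp (u + lm) δ) * Complex.exp (((u + lm : ℝ) : ℂ) * t * I)) =
      ((w u * Real.exp (u / 2) : ℝ) : ℂ) * EE A B (m * zp u δ) * Complex.exp (u * t * I) := by
    intro u
    rw [hw']
    simp only
    rw [add_sub_cancel_right, hlm, EE_shift A B u δ m hm]
    have e1 : cm * (((Real.exp ((u + lm) / 2) : ℝ) : ℂ) *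
        Complex.exp (((u + lm : ℝ) : ℂ) * t * I)) =
        ((Real.exp (u / 2) : ℝ) : ℂ) * Complex.exp (u * t * I) := by
      rw [hcm, Complex.cpow_def_of_ne_zero hmC]
      have hl : Complex.log (m : ℂ) = (lm : ℂ) := by
        rw [hlm, ← Complex.ofReal_natCast, Complex.ofReal_log (by positivity)]
      rw [hl, Complex.ofReal_exp, Complex.ofReal_exp, ← Complex.exp_add, ← Complex.exp_add,
        ← Complex.exp_add]
      congr 1
      push_cast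
      ring
    rw [← hlm, Complex.ofReal_mul, Complex.ofReal_mul]
    linear_combination ((w u : ℂ) * EE A B (m * zp u δ)) * e1
  refine ⟨?_, ?_, ?_⟩
  · refine (b1.const_mul cm).congr (ae_of_all _ fun y => ?_)
    show cm * (_ * _ * G' _) = _ * _ * (_ * _)
    rw [hsh]
    ring
  · have e1 : (∫ u : ℝ, ((w u * Real.exp (u / 2) : ℝ) : ℂ) * EE A B (m * zp u δ) *
        Complex.exp (u * t * I)) = cm * SEG A B δ t w' := by
      unfold SEG
      rw [← integral_const_mul]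
      rw [← integral_add_right_eq_self (fun u : ℝ => cm *
        (((w' u * Real.exp (u / 2) : ℝ) : ℂ) * EE A B (zp u δ) * Complex.exp (u * t * I))) lm]
      exact (integral_congr_ae (ae_of_all _ fun u => hu u)).symm
    rw [e1, b2]
    unfold VI
    rw [mul_left_comm, ← integral_const_mul]
    congr 1
    refine integral_congr_ae (ae_of_all _ fun y => ?_)
    show cm * (_ * _ * G' _) = _ * _ * (_ * _)
    rw [hsh]
    ring
  · exact ((b3.comp_add_right lm).const_mul cm).congr (ae_of_all _ fun u => hu u)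

/-- The right line with a Dirichlet polynomial. -/
theorem rgt_B (h1 : GAMIStatement) (h2 : DX2Statement) (A B δ t : ℝ) (hδ : 0 < δ)
    (hδ2 : δ ≤ 1 / 2) (w : ℝ → ℝ)
    (hwint : Integrable (fun u : ℝ => ((w u * Real.exp (-u) : ℝ) : ℂ))) (G : ℂ → ℂ)
    (hGc : Continuous (fun y : ℝ => G (((3 / 2 : ℝ) : ℂ) + y * I))) (M : ℝ)
    (hGb : ∀ y : ℝ, ‖G (((3 / 2 : ℝ) : ℂ) + y * I)‖ ≤ M)
    (hrep : ∀ y : ℝ, ∫ u : ℝ, (w u : ℂ) *
      Complex.exp (-(u * ((((3 / 2 : ℝ) : ℂ) + y * I) - 1 / 2 - t * I))) =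
        G (((3 / 2 : ℝ) : ℂ) + y * I)) (Fs : Finset ℕ) (β : ℕ → ℝ) (hFs : ∀ m ∈ Fs, 1 ≤ m) :
    Integrable (fun y : ℝ => LSeries (fun n => ((bn A B n : ℝ) : ℂ)) ((3 / 2 : ℝ) + y * I) *
      om0 δ ((3 / 2 : ℝ) + y * I) * (polyB Fs β ((3 / 2 : ℝ) + y * I) *
        G ((3 / 2 : ℝ) + y * I))) ∧
    SEB A B δ t w Fs β =
      VI (3 / 2) (fun s => LSeries (fun n => ((bn A B n : ℝ) : ℂ)) s * om0 δ s *
        (polyB Fs β s * G s)) := by
  have hone := fun m (hm : m ∈ Fs) =>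
    rgt_one h1 h2 A B δ t hδ hδ2 w hwint G hGc M hGb hrep m (hFs m hm)
  have hint : Integrable (fun y : ℝ => ∑ m ∈ Fs, (β m : ℂ) *
      (LSeries (fun n => ((bn A B n : ℝ) : ℂ)) ((3 / 2 : ℝ) + y * I) *
      om0 δ ((3 / 2 : ℝ) + y * I) * ((m : ℂ) ^ (-(((3 / 2 : ℝ) : ℂ) + y * I)) *
        G ((3 / 2 : ℝ) + y * I)))) :=
    integrable_finsetSum _ fun m hm => (hone m hm).1.const_mul _
  have hsum : ∀ s : ℂ, LSeries (fun n => ((bn A B n : ℝ) : ℂ)) s * om0 δ s *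
      (polyB Fs β s * G s) = ∑ m ∈ Fs, (β m : ℂ) *
      (LSeries (fun n => ((bn A B n : ℝ) : ℂ)) s * om0 δ s * ((m : ℂ) ^ (-s) * G s)) := by
    intro s
    unfold polyB
    rw [Finset.sum_mul, Finset.mul_sum]
    exact Finset.sum_congr rfl fun m _ => by ring
  refine ⟨hint.congr (ae_of_all _ fun y => (hsum _).symm), ?_⟩
  have e1 : SEB A B δ t w Fs β = ∑ m ∈ Fs, (β m : ℂ) *
      ∫ u : ℝ, ((w u * Real.exp (u / 2) : ℝ) : ℂ) * EE A B (m * zp u δ) *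
        Complex.exp (u * t * I) := by
    unfold SEB
    rw [← Finset.sum_congr rfl (fun m _ => integral_const_mul (β m : ℂ) _),
      ← integral_finsetSum _ (fun m hm => ((hone m hm).2.2.const_mul _))]
    refine integral_congr_ae (ae_of_all _ fun u => ?_)
    show _ * (∑ m ∈ Fs, _) * _ = ∑ m ∈ Fs, _
    rw [Finset.mul_sum, Finset.sum_mul]
    exact Finset.sum_congr rfl fun m _ => by ring
  have e2 : VI (3 / 2) (fun s => LSeries (fun n => ((bn A B n : ℝ) : ℂ)) s * om0 δ s *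
        (polyB Fs β s * G s)) = ∑ m ∈ Fs, (β m : ℂ) *
      VI (3 / 2) (fun s => LSeries (fun n => ((bn A B n : ℝ) : ℂ)) s * om0 δ s *
        ((m : ℂ) ^ (-s) * G s)) := by
    unfold VI
    have e3 : (∫ y : ℝ, (fun s => LSeries (fun n => ((bn A B n : ℝ) : ℂ)) s * om0 δ s *
        (polyB Fs β s * G s)) (((3 / 2 : ℝ) : ℂ) + y * I)) =
        ∑ m ∈ Fs, (β m : ℂ) * ∫ y : ℝ, (fun s => LSeries (fun n => ((bn A B n : ℝ) : ℂ)) s *
          om0 δ s * ((m : ℂ) ^ (-s) * G s)) (((3 / 2 : ℝ) : ℂ) + y * I) := by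
      rw [← Finset.sum_congr rfl (fun m _ => integral_const_mul (β m : ℂ) _),
        ← integral_finsetSum _ (fun m hm => ((hone m hm).1.const_mul _))]
      exact integral_congr_ae (ae_of_all _ fun y => hsum _)
    rw [e3, Finset.mul_sum]
    exact Finset.sum_congr rfl fun m _ => by ring
  rw [e1, e2]
  exact Finset.sum_congr rfl fun m hm => by rw [(hone m hm).2.1]

end Pool.Agent.Lib.MP_6bc78b_nt.GP.H61B
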