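import Pool.Agent.Lib.MP_6bc78b_nt.GP.H43.Defs10b
import Pool.Agent.Lib.MP_6bc78b_nt.GP.H61.Conb

/-! Project GP10, row CONB: the contour identity for the Gaussian window of small width. -/

set_option autoImplicit false

open Complex Set Filter Topology MeasureTheory

namespace Pool.Agent.Lib.MP_6bc78b_nt.GP.H61E

open Pool.Agent.Lib.MP_6bc78b_nt.MS Pool.Agent.Lib.MP_6bc78b_nt.MS.P1
open Pool.Agent.Lib.MP_6bc78b_nt.GP

/-- The Gaussian integral. -/
lemma gauss (H t : ℝ) (hH0 : 0 < H) (s : ℂ) :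
    ∫ u : ℝ, ((G10.gd H u : ℝ) : ℂ) * Complex.exp (-(u * (s - 1 / 2 - t * I))) = GH H t s := by
  have hHc : (H : ℂ) ≠ 0 := by exact_mod_cast hH0.ne'
  have hb : (-(H ^ 2 / 2 : ℝ) : ℂ).re < 0 := by
    rw [Complex.neg_re, Complex.ofReal_re]
    have : 0 < H ^ 2 / 2 := by positivity
    linarith
  have hpi := Real.pi_pos
  have e : ∀ u : ℝ, ((G10.gd H u : ℝ) : ℂ) * Complex.exp (-(u * (s - 1 / 2 - t * I))) =
      ((H / Real.sqrt (2 * Real.pi) : ℝ) : ℂ) *
        Complex.exp ((-(H ^ 2 / 2 : ℝ) : ℂ) * (u : ℂ) ^ 2 + (-(s - 1 / 2 - t * I)) * u + 0) := by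
    intro u
    unfold G10.gd
    rw [Complex.ofReal_mul, Complex.ofReal_exp, mul_assoc, ← Complex.exp_add]
    congr 2
    push_cast
    ring
  simp_rw [e]
  rw [integral_const_mul, integral_cexp_quadratic hb]
  have e2 : ((Real.pi : ℂ) / -(-(H ^ 2 / 2 : ℝ) : ℂ)) ^ (1 / 2 : ℂ) =
      ((Real.sqrt (2 * Real.pi) / H : ℝ) : ℂ) := by
    have h1 : ((Real.pi : ℂ) / -(-(H ^ 2 / 2 : ℝ) : ℂ)) = ((2 * Real.pi / H ^ 2 : ℝ) : ℂ) := by
      push_cast
      field_simp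
    have h2 : (1 / 2 : ℂ) = ((1 / 2 : ℝ) : ℂ) := by push_cast; rfl
    rw [h1, h2, ← Complex.ofReal_cpow (by positivity), ← Real.sqrt_eq_rpow,
      Real.sqrt_div (by positivity), Real.sqrt_sq hH0.le]
  rw [e2]
  unfold GH
  rw [← mul_assoc, ← Complex.ofReal_mul]
  have h3 : H / Real.sqrt (2 * Real.pi) * (Real.sqrt (2 * Real.pi) / H) = 1 := by
    have : Real.sqrt (2 * Real.pi) ≠ 0 := by positivity
    field_simp
  rw [h3, Complex.ofReal_one, one_mul]
  congr 1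
  push_cast
  field_simp
  ring

lemma gd_int (H : ℝ) (hH0 : 0 < H) :
    Integrable (fun u : ℝ => ((G10.gd H u * Real.exp (-u) : ℝ) : ℂ)) := by
  have h := integrable_cexp_quadratic' (b := ((-(H ^ 2 / 2) : ℝ) : ℂ)) (by
    rw [Complex.ofReal_re]
    have : 0 < H ^ 2 / 2 := by positivity
    linarith) (-1) 0
  refine (h.const_mul ((H / Real.sqrt (2 * Real.pi) : ℝ) : ℂ)).congr (ae_of_all _ fun u => ?_)
  show ((H / Real.sqrt (2 * Real.pi) : ℝ) : ℂ) * cexp (((-(H ^ 2 / 2) : ℝ) : ℂ) * (u : ℂ) ^ 2 +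
    (-1) * u + 0) = ((G10.gd H u * Real.exp (-u) : ℝ) : ℂ)
  unfold G10.gd
  rw [mul_assoc (H / Real.sqrt (2 * Real.pi)), ← Real.exp_add, Complex.ofReal_mul,
    Complex.ofReal_exp]
  congr 2
  push_cast
  ring

lemma GH_norm (H t : ℝ) (s : ℂ) : ‖GH H t s‖ =
    Real.exp (((s.re - 1 / 2) ^ 2 - (s.im - t) ^ 2) / (2 * H ^ 2)) := by
  unfold GH
  rw [Complex.norm_exp]
  congr 1
  have e : (s - 1 / 2 - t * I) ^ 2 / (2 * (H : ℂ) ^ 2) =
      ((((s.re - 1 / 2) ^ 2 - (s.im - t) ^ 2) / (2 * H ^ 2) : ℝ) : ℂ) +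
        ((2 * (s.re - 1 / 2) * (s.im - t) / (2 * H ^ 2) : ℝ) : ℂ) * I := by
    have hs : s - 1 / 2 - t * I = ((s.re - 1 / 2 : ℝ) : ℂ) + ((s.im - t : ℝ) : ℂ) * I := by
      apply Complex.ext <;> simp
    have hI : I ^ 2 = -1 := Complex.I_sq
    rw [hs]
    push_cast
    linear_combination ((s.im : ℂ) - t) ^ 2 / (2 * (H : ℂ) ^ 2) * hI
  rw [e, Complex.add_re, Complex.ofReal_re, Complex.re_ofReal_mul, Complex.I_re, mul_zero, add_zero]

/-- `∑ β(m) √m ≤ N²`. -/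
lemma mol_sqrt {S : Finset ℕ} {β : ℕ → ℝ} {N ν : ℝ} (h : G10.Mol S β N ν) (hN : 1 ≤ N) :
    ∑ m ∈ S, |β m| * Real.sqrt m ≤ N ^ 2 := by
  have h1 : ∀ m ∈ S, |β m| * Real.sqrt m ≤ β m / m * N ^ 2 := by
    intro m hm
    have hm1 : (1 : ℝ) ≤ m := by exact_mod_cast h.one_le m hm
    have hm0 : (0 : ℝ) < m := by linarith
    have hmN := h.le m hm
    rw [abs_of_nonneg (h.nonneg m)]
    have h2 : Real.sqrt m ≤ m := by
      rw [Real.sqrt_le_left (by linarith)]
      nlinarith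
    have h3 : β m * Real.sqrt m ≤ β m * m := mul_le_mul_of_nonneg_left h2 (h.nonneg m)
    have h4 : β m * m = β m / m * (m * m) := by
      field_simp
    have h5 : (m : ℝ) * m ≤ N ^ 2 := by nlinarith
    have h6 : β m / m * (m * m) ≤ β m / m * N ^ 2 :=
      mul_le_mul_of_nonneg_left h5 (div_nonneg (h.nonneg m) hm0.le)
    linarith
  refine (Finset.sum_le_sum h1).trans (le_of_eq ?_)
  rw [← Finset.sum_mul, h.sum_one, one_mul]

/-- CONB. -/
theorem conb (h1 : GAMIStatement) (hX : DX2Statement) (hG : GAMCStatement) :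
    G10.CONBStatement := by
  intro hRH A B
  have hl1 : ∀ᶠ T : ℝ in atTop, 1 ≤ Real.log (Real.log T) :=
    (Real.tendsto_log_atTop.comp Real.tendsto_log_atTop).eventually_ge_atTop 1
  have hl2 : ∀ᶠ T : ℝ in atTop, 1 ≤ Real.log T := Real.tendsto_log_atTop.eventually_ge_atTop 1
  have hl3 : ∀ᶠ T : ℝ in atTop, 80 * Real.log T ^ 2 ≤ T := by
    have h := (Real.isLittleO_pow_log_id_atTop (n := 2)).bound (by norm_num : (0 : ℝ) < 1 / 80)
    filter_upwards [h, eventually_ge_atTop 1] with T hT hT1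
    rw [Real.norm_of_nonneg (by positivity)] at hT
    simp only [id_eq] at hT
    rw [Real.norm_of_nonneg (by linarith)] at hT
    linarith
  have hl4 : ∀ᶠ T : ℝ in atTop, 2 * Real.log (Real.log T) ^ 5 ≤ Real.log T := by
    have h := (Real.isLittleO_pow_log_id_atTop (n := 5)).bound (by norm_num : (0 : ℝ) < 1 / 2)
    have h' := Real.tendsto_log_atTop.eventually h
    filter_upwards [h', hl1, hl2] with T hT hT1 hT2
    rw [Real.norm_of_nonneg (by positivity)] at hT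
    simp only [id_eq] at hT
    rw [Real.norm_of_nonneg (by linarith)] at hT
    linarith
  filter_upwards [H61C.con_B h1 hX hG hRH A B, hl1, hl2, hl3, hl4, eventually_ge_atTop 100] with
    T hT hT1 hT2 hT3 hT4 hT5
  intro t δ lam S β ht1 ht2 hδ1 hδ2 hlam1 hlam2 hM
  have hT0 : 0 < T := by linarith
  set L := Real.log T with hL
  set l := Real.log L with hl
  set H := G10.HH T lam with hH
  have hHdef : H = lam / (10 * Real.sqrt l) := rfl
  have hs1 : 1 ≤ Real.sqrt l := by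
    rw [Real.one_le_sqrt]
    exact hT1
  have hH0 : 0 < H := by rw [hHdef]; positivity
  have hHL : H ≤ L := by
    rw [hHdef, div_le_iff₀ (by positivity)]
    nlinarith
  have hN1 : (1 : ℝ) ≤ Real.exp (l ^ 5) := Real.one_le_exp (by positivity)
  have hsum : ∑ m ∈ S, |β m| * Real.sqrt m ≤ T := by
    refine (mol_sqrt hM hN1).trans ?_
    rw [← Real.exp_nat_mul]
    calc Real.exp ((2 : ℕ) * l ^ 5) ≤ Real.exp L := by
          apply Real.exp_le_exp.2
          push_cast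
          exact hT4
      _ = T := Real.exp_log hT0
  have hdiff : Differentiable ℂ (GH H t) := by
    unfold GH
    fun_prop
  have hsm : ∀ s : ℂ, -(1 / 2) ≤ s.re → s.re ≤ 3 / 2 → T / 4 ≤ |s.im - t| →
      ‖GH H t s‖ ≤ 1 / T ^ 11 / (1 + |s.im - t|) ^ 4 := by
    intro s a1 a2 a3
    rw [GH_norm]
    obtain ⟨x, hx⟩ : ∃ x : ℝ, x = |s.im - t| := ⟨_, rfl⟩
    have hx2 : (s.im - t) ^ 2 = x ^ 2 := by rw [hx, sq_abs]
    rw [hx2, ← hx]
    rw [← hx] at a3
    have hx25 : 25 ≤ x := by linarith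
    have b1 : (s.re - 1 / 2) ^ 2 ≤ 1 := by nlinarith
    have b2 : ((s.re - 1 / 2) ^ 2 - x ^ 2) / (2 * H ^ 2) ≤ -(5 * x) := by
      rw [div_le_iff₀ (by positivity)]
      have b3 : H ^ 2 ≤ L ^ 2 := pow_le_pow_left₀ hH0.le hHL 2
      have b4 : 5 * x * (2 * H ^ 2) ≤ 10 * x * L ^ 2 := by nlinarith
      have b5 : 10 * x * L ^ 2 ≤ x * (T / 8) := by nlinarith
      have b6 : x * (T / 8) ≤ x ^ 2 / 2 := by nlinarith
      nlinarith
    have b7 : T ^ 11 * (1 + x) ^ 4 ≤ Real.exp (5 * x) := by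
      have c1 : T ^ 11 = Real.exp (11 * L) := by
        rw [show (11 : ℝ) * L = ((11 : ℕ) : ℝ) * L by norm_num, Real.exp_nat_mul,
          Real.exp_log hT0]
      have c2 : (1 + x) ^ 4 ≤ Real.exp (4 * x) := by
        rw [show (4 : ℝ) * x = ((4 : ℕ) : ℝ) * x by norm_num, Real.exp_nat_mul]
        apply pow_le_pow_left₀ (by linarith)
        have := Real.add_one_le_exp x
        linarith
      have c3 : 11 * L ≤ x := by nlinarith
      rw [c1]
      calc Real.exp (11 * L) * (1 + x) ^ 4 ≤ Real.exp x * Real.exp (4 * x) :=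
            mul_le_mul (Real.exp_le_exp.2 c3) c2 (by positivity) (Real.exp_pos _).le
        _ = Real.exp (5 * x) := by rw [← Real.exp_add]; congr 1; ring
    refine (Real.exp_le_exp.2 b2).trans ?_
    rw [Real.exp_neg, div_div, one_div]
    apply inv_anti₀ (by positivity) b7
  have hb : ∀ y : ℝ, ‖GH H t (((3 / 2 : ℝ) : ℂ) + y * I)‖ ≤ Real.exp (1 / (2 * H ^ 2)) := by
    intro y
    rw [GH_norm]
    apply Real.exp_le_exp.2
    apply div_le_div_of_nonneg_right _ (by positivity)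
    have e1 : ((((3 / 2 : ℝ) : ℂ) + y * I)).re = 3 / 2 := by simp
    rw [e1]
    have := sq_nonneg ((((3 / 2 : ℝ) : ℂ) + y * I).im - t)
    nlinarith
  exact hT t δ (G10.gd H) (GH H t) (Real.exp (1 / (2 * H ^ 2))) S β ht1 ht2 hδ1 hδ2 hM.one_le hsum
    hdiff hsm (gd_int H hH0) hb (fun y => gauss H t hH0 _)

end Pool.Agent.Lib.MP_6bc78b_nt.GP.H61E
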