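import Pool.Agent.Lib.MP_6bc78b_nt.GP.H43.Defs10t
import Pool.Agent.Lib.MP_6bc78b_nt.GP.H61.RowConb

/-! Project GP10, row CONT: the contour identity for a longer polynomial. -/

set_option autoImplicit false

open Complex Set Filter Topology MeasureTheory

namespace Pool.Agent.Lib.MP_6bc78b_nt.GP.H61T

open Pool.Agent.Lib.MP_6bc78b_nt.MS Pool.Agent.Lib.MP_6bc78b_nt.MS.P1
open Pool.Agent.Lib.MP_6bc78b_nt.GP Pool.Agent.Lib.MP_6bc78b_nt.GP.H61E

/-- The contour identity for a polynomial of length at most `√T`. -/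
theorem con_gen (h1 : GAMIStatement) (hX : DX2Statement) (hG : GAMCStatement) :
    RiemannHypothesis → ∀ A B : ℝ, ∀ᶠ T : ℝ in atTop,
    ∀ (t δ lam N ν : ℝ) (S : Finset ℕ) (β : ℕ → ℝ), 3 / 4 * T ≤ t → t ≤ 3 * T → 1 / T ≤ δ →
    δ ≤ 2 / T → 1 ≤ lam → lam ≤ Real.log T → 1 ≤ N → N ^ 2 ≤ T → G10.Mol S β N ν →
    ‖G10.SB A B δ (G10.gd (G10.HH T lam)) S β t -
      G10.ILG A B T δ (fun s => G10.pB S β s * GH (G10.HH T lam) t s) -
      G10.SSG T δ (fun s => G10.pB S β s * GH (G10.HH T lam) t s)‖ ≤ 1 := by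
  intro hRH A B
  have hl1 : ∀ᶠ T : ℝ in atTop, 1 ≤ Real.log (Real.log T) :=
    (Real.tendsto_log_atTop.comp Real.tendsto_log_atTop).eventually_ge_atTop 1
  have hl2 : ∀ᶠ T : ℝ in atTop, 1 ≤ Real.log T := Real.tendsto_log_atTop.eventually_ge_atTop 1
  have hl3 : ∀ᶠ T : ℝ in atTop, 80 * Real.log T ^ 2 ≤ T := by
    have h := (Real.isLittleO_pow_log_id_atTop (n := 2)).bound (by norm_num : (0 : ℝ) < 1 / 80)
    filter_upwards [h, eventually_ge_atTop 1] with T hT hT1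
    rw [Real.norm_of_nonneg (by positivity)] at hT
    simp only [id_eq] at hT
    rw [Real.norm_of_nonneg (by linarith)] at hT
    linarith
  filter_upwards [H61C.con_B h1 hX hG hRH A B, hl1, hl2, hl3, eventually_ge_atTop 100] with
    T hT hT1 hT2 hT3 hT5
  intro t δ lam N ν S β ht1 ht2 hδ1 hδ2 hlam1 hlam2 hN1 hNT hM
  have hT0 : 0 < T := by linarith
  set L := Real.log T with hL
  set l := Real.log L with hl
  set H := G10.HH T lam with hH
  have hHdef : H = lam / (10 * Real.sqrt l) := rfl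
  have hs1 : 1 ≤ Real.sqrt l := by
    rw [Real.one_le_sqrt]
    exact hT1
  have hH0 : 0 < H := by rw [hHdef]; positivity
  have hHL : H ≤ L := by
    rw [hHdef, div_le_iff₀ (by positivity)]
    nlinarith
  have hsum : ∑ m ∈ S, |β m| * Real.sqrt m ≤ T := (H61E.mol_sqrt hM hN1).trans hNT
  have hdiff : Differentiable ℂ (GH H t) := by
    unfold GH
    fun_prop
  have hsm : ∀ s : ℂ, -(1 / 2) ≤ s.re → s.re ≤ 3 / 2 → T / 4 ≤ |s.im - t| →
      ‖GH H t s‖ ≤ 1 / T ^ 11 / (1 + |s.im - t|) ^ 4 := by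
    intro s a1 a2 a3
    rw [GH_norm]
    obtain ⟨x, hx⟩ : ∃ x : ℝ, x = |s.im - t| := ⟨_, rfl⟩
    have hx2 : (s.im - t) ^ 2 = x ^ 2 := by rw [hx, sq_abs]
    rw [hx2, ← hx]
    rw [← hx] at a3
    have hx25 : 25 ≤ x := by linarith
    have b1 : (s.re - 1 / 2) ^ 2 ≤ 1 := by nlinarith
    have b2 : ((s.re - 1 / 2) ^ 2 - x ^ 2) / (2 * H ^ 2) ≤ -(5 * x) := by
      rw [div_le_iff₀ (by positivity)]
      have b3 : H ^ 2 ≤ L ^ 2 := pow_le_pow_left₀ hH0.le hHL 2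
      have b4 : 5 * x * (2 * H ^ 2) ≤ 10 * x * L ^ 2 := by nlinarith
      have b5 : 10 * x * L ^ 2 ≤ x * (T / 8) := by nlinarith
      have b6 : x * (T / 8) ≤ x ^ 2 / 2 := by nlinarith
      nlinarith
    have b7 : T ^ 11 * (1 + x) ^ 4 ≤ Real.exp (5 * x) := by
      have c1 : T ^ 11 = Real.exp (11 * L) := by
        rw [show (11 : ℝ) * L = ((11 : ℕ) : ℝ) * L by norm_num, Real.exp_nat_mul,
          Real.exp_log hT0]
      have c2 : (1 + x) ^ 4 ≤ Real.exp (4 * x) := by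
        rw [show (4 : ℝ) * x = ((4 : ℕ) : ℝ) * x by norm_num, Real.exp_nat_mul]
        apply pow_le_pow_left₀ (by linarith)
        have := Real.add_one_le_exp x
        linarith
      have c3 : 11 * L ≤ x := by nlinarith
      rw [c1]
      calc Real.exp (11 * L) * (1 + x) ^ 4 ≤ Real.exp x * Real.exp (4 * x) :=
            mul_le_mul (Real.exp_le_exp.2 c3) c2 (by positivity) (Real.exp_pos _).le
        _ = Real.exp (5 * x) := by rw [← Real.exp_add]; congr 1; ring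
    refine (Real.exp_le_exp.2 b2).trans ?_
    rw [Real.exp_neg, div_div, one_div]
    apply inv_anti₀ (by positivity) b7
  have hb : ∀ y : ℝ, ‖GH H t (((3 / 2 : ℝ) : ℂ) + y * I)‖ ≤ Real.exp (1 / (2 * H ^ 2)) := by
    intro y
    rw [GH_norm]
    apply Real.exp_le_exp.2
    apply div_le_div_of_nonneg_right _ (by positivity)
    have e1 : ((((3 / 2 : ℝ) : ℂ) + y * I)).re = 3 / 2 := by simp
    rw [e1]
    have := sq_nonneg ((((3 / 2 : ℝ) : ℂ) + y * I).im - t)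
    nlinarith
  exact hT t δ (G10.gd H) (GH H t) (Real.exp (1 / (2 * H ^ 2))) S β ht1 ht2 hδ1 hδ2 hM.one_le hsum
    hdiff hsm (gd_int H hH0) hb (fun y => gauss H t hH0 _)

/-- CONT. -/
theorem cont (h1 : GAMIStatement) (hX : DX2Statement) (hG : GAMCStatement) :
    G10.CONTStatement := by
  intro hRH A B
  filter_upwards [con_gen h1 hX hG hRH A B, eventually_ge_atTop 1] with T hT hT1
  intro t δ lam S β ht1 ht2 hδ1 hδ2 hlam1 hlam2 hM
  refine hT t δ lam (T ^ (1 / 100 : ℝ)) 1 S β ht1 ht2 hδ1 hδ2 hlam1 hlam2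
    (Real.one_le_rpow hT1 (by norm_num)) ?_ hM
  rw [← Real.rpow_natCast, ← Real.rpow_mul (by linarith)]
  calc T ^ (1 / 100 * ((2 : ℕ) : ℝ) : ℝ) ≤ T ^ (1 : ℝ) :=
        Real.rpow_le_rpow_of_exponent_le hT1 (by norm_num)
    _ = T := Real.rpow_one T

/-- The same for length `exp √(log T)`. -/
theorem cons (h1 : GAMIStatement) (hX : DX2Statement) (hG : GAMCStatement) :
    RiemannHypothesis → ∀ A B : ℝ, ∀ᶠ T : ℝ in atTop,
    ∀ (t δ lam : ℝ) (S : Finset ℕ) (β : ℕ → ℝ), 3 / 4 * T ≤ t → t ≤ 3 * T → 1 / T ≤ δ →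
    δ ≤ 2 / T → 1 ≤ lam → lam ≤ Real.log T →
    G10.Mol S β (Real.exp (Real.sqrt (Real.log T))) 1 →
    ‖G10.SB A B δ (G10.gd (G10.HH T lam)) S β t -
      G10.ILG A B T δ (fun s => G10.pB S β s * GH (G10.HH T lam) t s) -
      G10.SSG T δ (fun s => G10.pB S β s * GH (G10.HH T lam) t s)‖ ≤ 1 := by
  intro hRH A B
  filter_upwards [con_gen h1 hX hG hRH A B, eventually_ge_atTop 1,
    Real.tendsto_log_atTop.eventually_ge_atTop 4] with T hT hT1 hL
  intro t δ lam S β ht1 ht2 hδ1 hδ2 hlam1 hlam2 hM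
  refine hT t δ lam _ 1 S β ht1 ht2 hδ1 hδ2 hlam1 hlam2
    (Real.one_le_exp (Real.sqrt_nonneg _)) ?_ hM
  have h2 : 2 ≤ Real.sqrt (Real.log T) := Real.le_sqrt_of_sq_le (by linarith)
  have h3 : Real.sqrt (Real.log T) * Real.sqrt (Real.log T) = Real.log T :=
    Real.mul_self_sqrt (by linarith)
  rw [← Real.exp_nat_mul]
  calc Real.exp (((2 : ℕ) : ℝ) * Real.sqrt (Real.log T)) ≤ Real.exp (Real.log T) := by
        apply Real.exp_le_exp.2
        push_cast
        nlinarith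
    _ = T := Real.exp_log (by linarith)

end Pool.Agent.Lib.MP_6bc78b_nt.GP.H61T
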