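import Pool.Agent.Lib.MP_6bc78b_nt.GP.GSL
import Pool.Agent.Lib.MP_6bc78b_nt.GP.H52.Lft
import Pool.Agent.Lib.MP_6bc78b_nt.GP.H61.Conb

/-! Project GP10: the left line with a Dirichlet polynomial, Gaussian window of any width. -/

set_option autoImplicit false

open Complex Filter Topology MeasureTheory Set

namespace Pool.Agent.Lib.MP_6bc78b_nt.GP.H61D

open Pool.Agent.Lib.MP_6bc78b_nt.MS Pool.Agent.Lib.MP_6bc78b_nt.MS.P1
  Pool.Agent.Lib.MP_6bc78b_nt.GP Pool.Agent.Lib.MP_6bc78b_nt.GP.GSL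
  Pool.Agent.Lib.MP_6bc78b_nt.GP.H52 Pool.Agent.Lib.MP_6bc78b_nt.GP.H61B
  Pool.Agent.Lib.MP_6bc78b_nt.GP.H61C

/-! ## Gaussian averages, small width -/

lemma norm_FF0b (H t v y : ℝ) : ‖FF0 H t v y‖ = Real.exp (1 / (2 * H ^ 2)) * G H t y := by
  unfold FF0
  rw [norm_mul, norm_osc, one_mul]
  exact norm_kk H t y

lemma FF0b_int {H : ℝ} (hH : 0 < H) (t v : ℝ) : Integrable (FF0 H t v) :=
  ((G_integrable hH t).const_mul (Real.exp (1 / (2 * H ^ 2)))).mono'
    (FF0_cont H t v).aestronglyMeasurable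
    (Eventually.of_forall fun y => (norm_FF0b H t v y).le)

lemma fullb {H : ℝ} (hH0 : 0 < H) (t v : ℝ) : ∫ y : ℝ, FF0 H t v y =
    Complex.exp (t * v * I) * ((H * Real.sqrt (2 * Real.pi) : ℝ) : ℂ) *
      Complex.exp (v - H ^ 2 * v ^ 2 / 2) := by
  have hHc : (H : ℂ) ≠ 0 := by exact_mod_cast hH0.ne'
  have hpi := Real.pi_pos
  have e1 : ∀ y : ℝ, FF0 H t v y = Complex.exp (-(1 / (2 * (H : ℂ) ^ 2)) * (y : ℂ) ^ 2 +
      (v * I + (t - I) / (H : ℂ) ^ 2) * y + ((1 - t ^ 2 + 2 * t * I) / (2 * (H : ℂ) ^ 2))) := by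
    intro y
    unfold FF0 kk
    rw [← Complex.exp_add]
    congr 1
    have hI : I ^ 2 = -1 := Complex.I_sq
    linear_combination ((y - t : ℂ) ^ 2 / (2 * (H : ℂ) ^ 2)) * hI
  simp only [e1]
  rw [integral_cexp_quadratic (by
    have : (-(1 / (2 * (H : ℂ) ^ 2))) = ((-(1 / (2 * H ^ 2)) : ℝ) : ℂ) := by push_cast; rfl
    rw [this, Complex.ofReal_re]
    have : 0 < 1 / (2 * H ^ 2) := by positivity
    linarith)]
  have e2 : ((Real.pi : ℂ) / -(-(1 / (2 * (H : ℂ) ^ 2)))) ^ (1 / 2 : ℂ) =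
      ((H * Real.sqrt (2 * Real.pi) : ℝ) : ℂ) := by
    have h1 : ((Real.pi : ℂ) / -(-(1 / (2 * (H : ℂ) ^ 2)))) = ((H ^ 2 * (2 * Real.pi) : ℝ) : ℂ) := by
      push_cast
      field_simp
    have h2 : (1 / 2 : ℂ) = ((1 / 2 : ℝ) : ℂ) := by push_cast; rfl
    rw [h1, h2, ← Complex.ofReal_cpow (by positivity), ← Real.sqrt_eq_rpow,
      Real.sqrt_mul (by positivity), Real.sqrt_sq hH0.le]
  have e3 : (1 - (t : ℂ) ^ 2 + 2 * t * I) / (2 * (H : ℂ) ^ 2) -
      (v * I + (t - I) / (H : ℂ) ^ 2) ^ 2 / (4 * -(1 / (2 * (H : ℂ) ^ 2))) =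
      t * v * I + (v - H ^ 2 * v ^ 2 / 2) := by
    have hI : I ^ 2 = -1 := Complex.I_sq
    field_simp
    ring_nf
    rw [hI]
    ring
  rw [e2, e3, Complex.exp_add]
  ring

/-- The error of the Gaussian average. -/
noncomputable def erb (a b t H M M' : ℝ) : ℝ :=
  Real.exp (1 / (2 * H ^ 2)) * (2 * (M' * H ^ 2) +
    M * (H ^ 2 / (t - a) * Real.exp (-((t - a) ^ 2 / (2 * H ^ 2))) +
      H ^ 2 / (b - t) * Real.exp (-((b - t) ^ 2 / (2 * H ^ 2)))))

lemma erb_nonneg {a b t H M M' : ℝ} (ha : a < t) (hb : t < b) (hM : 0 ≤ M) (hM' : 0 ≤ M') :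
    0 ≤ erb a b t H M M' := by
  unfold erb
  have h1 : 0 < t - a := by linarith
  have h2 : 0 < b - t := by linarith
  positivity

theorem gslb (W : ℝ → ℂ) (a b t H M M' v : ℝ) (hat : a < t) (htb : t < b) (hH0 : 0 < H)
    (hM : 0 ≤ M) (hM' : 0 ≤ M') (hW : ContinuousOn W (Icc a b))
    (hWM : ∀ y ∈ Icc a b, ‖W y‖ ≤ M) (hWL : ∀ y ∈ Icc a b, ‖W y - W t‖ ≤ M' * |y - t|) :
    ‖(∫ y in a..b, W y * FF0 H t v y) -
      W t * Complex.exp (t * v * I) * ((H * Real.sqrt (2 * Real.pi) : ℝ) : ℂ) *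
        Complex.exp (v - H ^ 2 * v ^ 2 / 2)‖ ≤ erb a b t H M M' := by
  have hab : a ≤ b := by linarith
  have hWt : ‖W t‖ ≤ M := hWM t ⟨hat.le, htb.le⟩
  set E : ℝ := Real.exp (1 / (2 * H ^ 2)) with hE
  have hE0 : 0 < E := Real.exp_pos _
  have hWI : ContinuousOn W (uIcc a b) := by rwa [uIcc_of_le hab]
  have i1 : IntervalIntegrable (fun y => (W y - W t) * FF0 H t v y) volume a b :=
    ((hWI.sub continuousOn_const).mul (FF0_cont H t v).continuousOn).intervalIntegrable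
  have i2 : IntervalIntegrable (fun y => W t * FF0 H t v y) volume a b :=
    (((FF0_cont H t v).continuousOn).const_smul (W t)).intervalIntegrable
  have s1 : ∫ y in a..b, W y * FF0 H t v y =
      (∫ y in a..b, (W y - W t) * FF0 H t v y) + W t * ∫ y in a..b, FF0 H t v y := by
    rw [← intervalIntegral.integral_const_mul, ← intervalIntegral.integral_add i1 i2]
    apply intervalIntegral.integral_congr
    intro y _
    simp only
    ring
  have s2 : ∫ y in a..b, FF0 H t v y =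
      (∫ y : ℝ, FF0 H t v y) - (∫ y in Iic a, FF0 H t v y) - ∫ y in Ioi b, FF0 H t v y := by
    have hI := FF0b_int hH0 t v
    have h1 := intervalIntegral.integral_Iic_add_Ioi (b := a) hI.integrableOn hI.integrableOn
    have h2 := intervalIntegral.integral_interval_add_Ioi (a := a) (b := b) hI.integrableOn
      hI.integrableOn
    rw [← h1, ← h2]
    ring
  have b1 : ‖∫ y in a..b, (W y - W t) * FF0 H t v y‖ ≤ E * (2 * (M' * H ^ 2)) := by
    have hc : Continuous fun y => |y - t| * G H t y := by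
      have := G_cont H t
      fun_prop
    have h1 : ‖∫ y in a..b, (W y - W t) * FF0 H t v y‖ ≤
        ∫ y in a..b, E * M' * (|y - t| * G H t y) := by
      apply intervalIntegral.norm_integral_le_of_norm_le hab
      · refine Eventually.of_forall fun y hy => ?_
        rw [norm_mul]
        have h3 := hWL y ⟨hy.1.le, hy.2⟩
        have h4 := (norm_FF0b H t v y).le
        calc _ ≤ (M' * |y - t|) * (E * G H t y) :=
              mul_le_mul h3 h4 (norm_nonneg _) (by positivity)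
          _ = E * M' * (|y - t| * G H t y) := by ring
      · exact (hc.const_mul _).intervalIntegrable _ _
    refine h1.trans ?_
    rw [intervalIntegral.integral_const_mul]
    have := moment hH0 hat.le htb.le
    have h5 : 0 ≤ E * M' := by positivity
    calc _ ≤ E * M' * (2 * H ^ 2) := mul_le_mul_of_nonneg_left this h5
      _ = _ := by ring
  have b2 : ‖∫ y in Iic a, FF0 H t v y‖ ≤
      E * (H ^ 2 / (t - a) * Real.exp (-((t - a) ^ 2 / (2 * H ^ 2)))) := by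
    refine (norm_integral_le_of_norm_le (g := fun y => E * G H t y)
      ((G_integrable hH0 t).const_mul E).integrableOn
      (Eventually.of_forall fun y => (norm_FF0b H t v y).le)).trans ?_
    rw [integral_const_mul]
    exact mul_le_mul_of_nonneg_left (tail_left hH0 hat) hE0.le
  have b3 : ‖∫ y in Ioi b, FF0 H t v y‖ ≤
      E * (H ^ 2 / (b - t) * Real.exp (-((b - t) ^ 2 / (2 * H ^ 2)))) := by
    refine (norm_integral_le_of_norm_le (g := fun y => E * G H t y)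
      ((G_integrable hH0 t).const_mul E).integrableOn
      (Eventually.of_forall fun y => (norm_FF0b H t v y).le)).trans ?_
    rw [integral_const_mul]
    exact mul_le_mul_of_nonneg_left (tail hH0 htb) hE0.le
  rw [s1, s2, fullb hH0]
  unfold erb
  rw [← hE]
  set TA := H ^ 2 / (t - a) * Real.exp (-((t - a) ^ 2 / (2 * H ^ 2))) with hTA
  set TB := H ^ 2 / (b - t) * Real.exp (-((b - t) ^ 2 / (2 * H ^ 2))) with hTB
  have e5 : (∫ y in a..b, (W y - W t) * FF0 H t v y) +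
      W t * (Complex.exp (t * v * I) * ((H * Real.sqrt (2 * Real.pi) : ℝ) : ℂ) *
      Complex.exp (v - H ^ 2 * v ^ 2 / 2) - (∫ y in Iic a, FF0 H t v y) -
        ∫ y in Ioi b, FF0 H t v y) -
      W t * Complex.exp (t * v * I) * ((H * Real.sqrt (2 * Real.pi) : ℝ) : ℂ) *
        Complex.exp (v - H ^ 2 * v ^ 2 / 2) =
      (∫ y in a..b, (W y - W t) * FF0 H t v y) - W t * ((∫ y in Iic a, FF0 H t v y) +
        ∫ y in Ioi b, FF0 H t v y) := by ring
  rw [e5]
  have b4 : ‖W t * ((∫ y in Iic a, FF0 H t v y) + ∫ y in Ioi b, FF0 H t v y)‖ ≤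
      M * (E * TA + E * TB) := by
    rw [norm_mul]
    exact mul_le_mul hWt ((norm_add_le _ _).trans (add_le_add b2 b3)) (norm_nonneg _) hM
  refine (norm_sub_le _ _).trans ((add_le_add b1 b4).trans (le_of_eq ?_))
  ring

/-! ## Ratio sums -/

/-- The Gaussian as a weight of the frequencies. -/
noncomputable def gw (H v : ℝ) : ℂ := ((Real.exp (-(H ^ 2 * v ^ 2 / 2)) : ℝ) : ℂ)

/-- The term `f(n) (nm)^(-1/2) w(log (n/m)) (n/m)^(it)`. -/
noncomputable def trm (f : ℕ → ℂ) (w : ℝ → ℂ) (t : ℝ) (m n : ℕ) : ℂ :=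
  if n = 0 then 0 else f n * (((n : ℝ) ^ (-(1 / 2) : ℝ) * (m : ℝ) ^ (-(1 / 2) : ℝ) : ℝ) : ℂ) *
    w (Real.log n - Real.log m) *
    Complex.exp (((t * (Real.log n - Real.log m) : ℝ) : ℂ) * I)

lemma rpow_ratio {n m : ℕ} (hn : n ≠ 0) (hm : 1 ≤ m) :
    (n : ℝ) ^ (-(1 / 2) : ℝ) * (m : ℝ) ^ (-(1 / 2) : ℝ) =
      (n : ℝ) ^ (-(3 / 2) : ℝ) * Real.sqrt m * Real.exp (Real.log n - Real.log m) := by
  have hn0 : (0 : ℝ) < n := by exact_mod_cast Nat.pos_of_ne_zero hn
  have hm0 : (0 : ℝ) < m := by exact_mod_cast hm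
  rw [Real.sqrt_eq_rpow, Real.rpow_def_of_pos hn0, Real.rpow_def_of_pos hm0,
    Real.rpow_def_of_pos hn0, Real.rpow_def_of_pos hm0, ← Real.exp_add, ← Real.exp_add,
    ← Real.exp_add]
  congr 1
  ring

lemma trm_le {f : ℕ → ℂ} {κ : ℝ} (hκ : 0 ≤ κ)
    (hf : ∀ n : ℕ, n ≠ 0 → ‖f n‖ ≤ κ * (1 + Real.log n) ^ 2) {w : ℝ → ℂ} {K : ℝ}
    (hw : ∀ v : ℝ, ‖w v‖ * Real.exp v ≤ K) (t : ℝ) {m : ℕ} (hm : 1 ≤ m) (n : ℕ) :
    ‖trm f w t m n‖ ≤ κ * wt n * (Real.sqrt m * K) := by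
  unfold trm wt
  split_ifs with hn
  · simp
  · rw [norm_mul, norm_mul, norm_mul, Complex.norm_exp_ofReal_mul_I, mul_one, Complex.norm_real,
      Real.norm_of_nonneg (by positivity), rpow_ratio hn hm]
    calc ‖f n‖ * ((n : ℝ) ^ (-(3 / 2) : ℝ) * Real.sqrt m *
          Real.exp (Real.log n - Real.log m)) * ‖w (Real.log n - Real.log m)‖
        = ‖f n‖ * ((n : ℝ) ^ (-(3 / 2) : ℝ) * Real.sqrt m *
          (‖w (Real.log n - Real.log m)‖ * Real.exp (Real.log n - Real.log m))) := by ring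
      _ ≤ (κ * (1 + Real.log n) ^ 2) * ((n : ℝ) ^ (-(3 / 2) : ℝ) * Real.sqrt m * K) := by
          apply mul_le_mul (hf n hn) _ (by positivity) (by positivity)
          exact mul_le_mul_of_nonneg_left (hw _) (by positivity)
      _ = κ * ((1 + Real.log n) ^ 2 * (n : ℝ) ^ (-(3 / 2) : ℝ)) * (Real.sqrt m * K) := by ring

lemma trm_summable {f : ℕ → ℂ} {κ : ℝ} (hκ : 0 ≤ κ)
    (hf : ∀ n : ℕ, n ≠ 0 → ‖f n‖ ≤ κ * (1 + Real.log n) ^ 2) {w : ℝ → ℂ} {K : ℝ}
    (hw : ∀ v : ℝ, ‖w v‖ * Real.exp v ≤ K) (t : ℝ) {m : ℕ} (hm : 1 ≤ m) :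
    Summable (fun n => trm f w t m n) :=
  Summable.of_norm_bounded ((wt_summable.mul_left κ).mul_right _)
    (fun n => trm_le hκ hf hw t hm n)

lemma gw_norm (H v : ℝ) : ‖gw H v‖ = Real.exp (-(H ^ 2 * v ^ 2 / 2)) := by
  unfold gw
  rw [Complex.norm_real, Real.norm_of_nonneg (Real.exp_pos _).le]

lemma gw_exp {H : ℝ} (hH : 0 < H) (v : ℝ) :
    ‖gw H v‖ * Real.exp v ≤ Real.exp (1 / (2 * H ^ 2)) := by
  rw [gw_norm, ← Real.exp_add]
  apply Real.exp_le_exp.2
  have h1 : 0 ≤ (H * v - 1 / H) ^ 2 := sq_nonneg _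
  have h2 : (H * v - 1 / H) ^ 2 = H ^ 2 * v ^ 2 - 2 * v + 1 / H ^ 2 := by
    field_simp
    ring
  have h3 : 1 / (2 * H ^ 2) = 1 / H ^ 2 / 2 := by
    field_simp
  rw [h3]
  linarith

/-- Gaussian average of `W(y) A(3/2 - iy) m^(-iy)`. -/
theorem dir_avgB (f : ℕ → ℂ) (κ : ℝ) (hκ : 0 ≤ κ)
    (hf : ∀ n : ℕ, n ≠ 0 → ‖f n‖ ≤ κ * (1 + Real.log n) ^ 2)
    (W : ℝ → ℂ) (a b t H M M' : ℝ) (hat : a < t) (htb : t < b) (hH : 0 < H) (hM : 0 ≤ M)
    (hM' : 0 ≤ M') (hWc : ContinuousOn W (Icc a b)) (hWb : ∀ y ∈ Icc a b, ‖W y‖ ≤ M)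
    (hWl : ∀ y ∈ Icc a b, ‖W y - W t‖ ≤ M' * |y - t|) (m : ℕ) (hm : 1 ≤ m) :
    IntervalIntegrable (fun y => W y * LSeries f ((3 / 2 : ℝ) - y * I) *
      ((Real.sqrt m : ℝ) * Complex.exp (((-(y * Real.log m) : ℝ) : ℂ) * I)) * gf t H y)
      volume a b ∧
    ‖(∫ y in a..b, W y * LSeries f ((3 / 2 : ℝ) - y * I) *
      ((Real.sqrt m : ℝ) * Complex.exp (((-(y * Real.log m) : ℝ) : ℂ) * I)) * gf t H y) -
      W t * ((H * Real.sqrt (2 * Real.pi) : ℝ) : ℂ) * ∑' n, trm f (gw H) t m n‖ ≤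
      κ * (∑' n, wt n) * (Real.sqrt m * erb a b t H M M') := by
  have hab : a ≤ b := (hat.trans htb).le
  have htm : t ∈ Icc a b := ⟨hat.le, htb.le⟩
  set E1 : ℝ := Real.exp (1 / (2 * H ^ 2)) with hE1
  have hE10 : 0 < E1 := Real.exp_pos _
  have hgf : ∀ y, ‖gf t H y‖ ≤ E1 := by
    intro y
    have h1 : gf t H y = kk H t y := rfl
    rw [h1, norm_kk]
    exact mul_le_of_le_one_right hE10.le (G_le_one _ _ _)
  -- the terms
  set F : ℕ → ℝ → ℂ := fun n y => W y * LSeries.term f ((3 / 2 : ℝ) - y * I) n *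
    ((Real.sqrt m : ℝ) * Complex.exp (((-(y * Real.log m) : ℝ) : ℂ) * I)) * gf t H y with hF
  have hterm : ∀ (n : ℕ) (y : ℝ), ‖LSeries.term f ((3 / 2 : ℝ) - y * I) n‖ ≤ κ * wt n := by
    intro n y
    rcases eq_or_ne n 0 with rfl | hn
    · simp [wt]
    · rw [term_eq f n hn y, norm_mul, norm_mul, Complex.norm_real, Real.norm_of_nonneg (by positivity)]
      have h1 : ‖Complex.exp (y * Real.log n * I)‖ = 1 := by
        rw [← Complex.ofReal_mul]
        exact Complex.norm_exp_ofReal_mul_I (y * Real.log n)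
      rw [h1, mul_one]
      unfold wt
      rw [if_neg hn, ← mul_assoc]
      exact mul_le_mul_of_nonneg_right (hf n hn) (by positivity)
  have hmc : Continuous (fun y : ℝ => ((Real.sqrt m : ℝ) : ℂ) *
      Complex.exp (((-(y * Real.log m) : ℝ) : ℂ) * I)) := by
    fun_prop
  have hmn : ∀ y : ℝ, ‖((Real.sqrt m : ℝ) : ℂ) *
      Complex.exp (((-(y * Real.log m) : ℝ) : ℂ) * I)‖ ≤ Real.sqrt m := by
    intro y
    rw [norm_mul, Complex.norm_exp_ofReal_mul_I, mul_one, Complex.norm_real,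
      Real.norm_of_nonneg (Real.sqrt_nonneg _)]
  have hFc : ∀ n, ContinuousOn (F n) (Icc a b) := by
    intro n
    refine ((hWc.mul ?_).mul hmc.continuousOn).mul (gf_cont t H).continuousOn
    apply Continuous.continuousOn
    rcases eq_or_ne n 0 with rfl | hn
    · simp only [LSeries.term_zero]; exact continuous_const
    · have : (fun y : ℝ => LSeries.term f ((3 / 2 : ℝ) - y * I) n) = fun y : ℝ =>
          f n * (((n : ℝ) ^ (-(3 / 2) : ℝ) : ℝ) : ℂ) * Complex.exp (y * Real.log n * I) := by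
        funext y; exact term_eq f n hn y
      rw [this]
      fun_prop
  have hbd : ∀ n, ∀ y ∈ Icc a b, ‖F n y‖ ≤ M * (κ * wt n) * Real.sqrt m * E1 := by
    intro n y hy
    simp only [hF]
    rw [norm_mul, norm_mul, norm_mul]
    have hw0 := wt_nonneg n
    apply mul_le_mul _ (hgf y) (norm_nonneg _) (by positivity)
    apply mul_le_mul _ (hmn y) (norm_nonneg _) (by positivity)
    exact mul_le_mul (hWb y hy) (hterm n y) (norm_nonneg _) hM
  have hbs : Summable fun n => M * (κ * wt n) * Real.sqrt m * E1 :=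
    (((wt_summable.mul_left κ).mul_left M).mul_right _).mul_right _
  have hsumF : ∀ y : ℝ, Summable fun n => LSeries.term f ((3 / 2 : ℝ) - y * I) n := by
    intro y
    exact Summable.of_norm_bounded (wt_summable.mul_left κ) (hterm · y)
  have hI : uIoc a b ⊆ Icc a b := by
    rw [uIoc_of_le hab]; exact Ioc_subset_Icc_self
  have hlim : ∀ y : ℝ, HasSum (fun n => F n y)
      (W y * LSeries f ((3 / 2 : ℝ) - y * I) *
      ((Real.sqrt m : ℝ) * Complex.exp (((-(y * Real.log m) : ℝ) : ℂ) * I)) * gf t H y) := by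
    intro y
    exact (((hsumF y).hasSum.mul_left (W y)).mul_right _).mul_right (gf t H y)
  have hsum : HasSum (fun n => ∫ y in a..b, F n y)
      (∫ y in a..b, W y * LSeries f ((3 / 2 : ℝ) - y * I) *
      ((Real.sqrt m : ℝ) * Complex.exp (((-(y * Real.log m) : ℝ) : ℂ) * I)) * gf t H y) := by
    refine intervalIntegral.hasSum_integral_of_dominated_convergence
      (fun n _ => M * (κ * wt n) * Real.sqrt m * E1) ?_ ?_ ?_ ?_ ?_
    · intro n
      exact ((hFc n).mono hI).aestronglyMeasurable measurableSet_uIoc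
    · intro n
      exact Eventually.of_forall fun y hy => hbd n y (hI hy)
    · exact Eventually.of_forall fun y _ => hbs
    · exact intervalIntegrable_const
    · exact Eventually.of_forall fun y _ => hlim y
  -- continuity of the sum
  have hcont : ContinuousOn (fun y => W y * LSeries f ((3 / 2 : ℝ) - y * I) *
      ((Real.sqrt m : ℝ) * Complex.exp (((-(y * Real.log m) : ℝ) : ℂ) * I)) * gf t H y)
      (Icc a b) := by
    have h1 := continuousOn_tsum hFc hbs hbd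
    refine h1.congr fun y _ => ?_
    exact (hlim y).tsum_eq.symm
  refine ⟨hcont.intervalIntegrable_of_Icc hab, ?_⟩
  -- main terms
  set hs : ℂ := ((H * Real.sqrt (2 * Real.pi) : ℝ) : ℂ) with hhs
  set E := erb a b t H M M' with hE
  have hE0 : 0 ≤ E := erb_nonneg hat htb hM hM'
  have key : ∀ n : ℕ, ‖(∫ y in a..b, F n y) - W t * hs * trm f (gw H) t m n‖ ≤
      κ * wt n * (Real.sqrt m * E) := by
    intro n
    rcases eq_or_ne n 0 with rfl | hn
    · simp [hF, wt, trm]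
    · set c : ℂ := f n * (((n : ℝ) ^ (-(3 / 2) : ℝ) : ℝ) : ℂ) * ((Real.sqrt m : ℝ) : ℂ) with hc
      have hcn : ‖c‖ ≤ κ * wt n * Real.sqrt m := by
        rw [hc, norm_mul, norm_mul, Complex.norm_real, Complex.norm_real,
          Real.norm_of_nonneg (by positivity), Real.norm_of_nonneg (Real.sqrt_nonneg _)]
        unfold wt
        rw [if_neg hn, ← mul_assoc]
        exact mul_le_mul_of_nonneg_right
          (mul_le_mul_of_nonneg_right (hf n hn) (by positivity)) (Real.sqrt_nonneg _)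
      set v : ℝ := Real.log n - Real.log m with hv
      have h1 : (∫ y in a..b, F n y) = c * ∫ y in a..b, W y * FF0 H t v y := by
        rw [← intervalIntegral.integral_const_mul]
        refine intervalIntegral.integral_congr fun y _ => ?_
        simp only [hF]
        have e : Complex.exp (y * v * I) = Complex.exp (y * Real.log n * I) *
            Complex.exp (((-(y * Real.log m) : ℝ) : ℂ) * I) := by
          rw [← Complex.exp_add, hv]
          congr 1
          push_cast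
          ring
        have e2 : FF0 H t v y = Complex.exp (y * v * I) * gf t H y := rfl
        rw [term_eq f n hn y, e2, e, hc]
        ring
      have h2 := gslb W a b t H M M' v hat htb hH hM hM' hWc hWb hWl
      set J := ∫ y in a..b, W y * FF0 H t v y with hJ
      have h5 : c * (W t * Complex.exp (t * v * I) * hs *
          Complex.exp (v - H ^ 2 * v ^ 2 / 2)) = W t * hs * trm f (gw H) t m n := by
        unfold trm gw
        rw [if_neg hn, rpow_ratio hn hm, ← hv, hc]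
        have e1 : Complex.exp (t * v * I) = Complex.exp (((t * v : ℝ) : ℂ) * I) := by
          congr 1
          push_cast
          ring
        have e2 : Complex.exp (v - H ^ 2 * v ^ 2 / 2) = ((Real.exp v : ℝ) : ℂ) *
            ((Real.exp (-(H ^ 2 * v ^ 2 / 2)) : ℝ) : ℂ) := by
          rw [Complex.ofReal_exp, Complex.ofReal_exp, ← Complex.exp_add]
          congr 1
          push_cast
          ring
        rw [e1, e2]
        push_cast
        ring
      rw [h1, ← h5, ← mul_sub, norm_mul, ← mul_assoc]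
      exact mul_le_mul hcn h2 (norm_nonneg _)
        (mul_nonneg (mul_nonneg hκ (wt_nonneg n)) (Real.sqrt_nonneg _))
  have htr := (trm_summable hκ hf (gw_exp hH) t hm).hasSum.mul_left (W t * hs)
  have hsum2 := hsum.sub htr
  have hsum3 : HasSum (fun n => κ * wt n * (Real.sqrt m * E))
      (κ * (∑' n, wt n) * (Real.sqrt m * E)) :=
    (wt_summable.hasSum.mul_left κ).mul_right _
  exact hsum2.norm_le_of_bounded hsum3 key

/-- `polyB` on the left line. -/
lemma polyB_left (Fs : Finset ℕ) (β : ℕ → ℝ) (hFs : ∀ m ∈ Fs, 1 ≤ m) (y : ℝ) :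
    polyB Fs β (-(1 / 2) + y * I) = ∑ m ∈ Fs, (β m : ℂ) *
      ((Real.sqrt m : ℝ) * Complex.exp (((-(y * Real.log m) : ℝ) : ℂ) * I)) := by
  unfold polyB
  refine Finset.sum_congr rfl fun m hm => ?_
  congr 1
  have hm0 : (0 : ℝ) < m := by exact_mod_cast hFs m hm
  have hmc : (m : ℂ) ≠ 0 := by exact_mod_cast (by have := hFs m hm; omega : m ≠ 0)
  rw [Complex.cpow_def_of_ne_zero hmc, Real.sqrt_eq_rpow, Real.rpow_def_of_pos hm0,
    Complex.ofReal_exp, ← Complex.exp_add, ← Complex.natCast_log]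
  congr 1
  push_cast
  ring

/-- THE LEFT LINE WITH THE POLYNOMIAL. -/
theorem left_B (hF : FEQStatement) (hO : OMDStatement) (hD : DX2Statement) : ∀ A B : ℝ,
    ∃ C T₀ : ℝ, 0 < C ∧ 100 < T₀ ∧ ∀ T t δ H : ℝ, T₀ ≤ T → 3 / 4 * T ≤ t → t ≤ 3 * T → 0 ≤ δ →
    δ ≤ 2 / T → 0 < H → ∀ (Fs : Finset ℕ) (β : ℕ → ℝ), (∀ m ∈ Fs, 1 ≤ m) →
    ‖ILG A B T δ (fun s => polyB Fs β s * GH H t s) -
      (1 / (2 * Real.pi) : ℂ) * ((H * Real.sqrt (2 * Real.pi) : ℝ) : ℂ) * ∑ m ∈ Fs, (β m : ℂ) *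
        (kf δ t * w0 A B t * (∑' n, trm (LSER.cast one) (gw H) t m n) -
          kf δ t * w1 A t * (∑' n, trm (LSER.cast lg) (gw H) t m n) +
          kf δ t * ∑' n, trm (fun n => ((bn 0 0 n : ℝ) : ℂ)) (gw H) t m n)‖ ≤
      C * (Real.exp (1 / (2 * H ^ 2)) * Real.log T ^ 2 * H ^ 2 / T) *
        ∑ m ∈ Fs, |β m| * Real.sqrt m := by
  intro A B
  obtain ⟨C, T₀, hC, hT₀, hcoef⟩ := coef hO A B
  obtain ⟨hD1, -, ⟨CB, hCB, hbn⟩⟩ := hD 0 0
  set C' : ℝ := C + 12 with hC'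
  set Sw : ℝ := ∑' n, wt n with hSw
  have hSw0 : 0 ≤ Sw := tsum_nonneg wt_nonneg
  refine ⟨(2 + CB) * Sw * (2 * C' + 15) + 1, T₀, by positivity, hT₀, ?_⟩
  intro T t δ H hTT ht1 ht2 hδ0 hδ2 hH Fs β hFs
  have hT0 : 0 < T := by linarith
  obtain ⟨hL1, hw0, hw1, hl0, hl1, -⟩ := hcoef T hTT
  set L := Real.log T with hL
  have hL0 : 0 < L := by linarith
  have htm : t ∈ Icc (T / 2) (4 * T) := ⟨by linarith, by linarith⟩
  have hat : T / 2 < t := by linarith
  have htb : t < 4 * T := by linarith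
  have hab : T / 2 ≤ 4 * T := by linarith
  -- the three functions
  set M : ℝ := 3 * L ^ 2 with hM
  set mm : ℝ := C' * L ^ 2 / T with hmm
  have hM0 : 0 ≤ M := by positivity
  have hm0 : 0 ≤ mm := by positivity
  have hpos : ∀ x ∈ Icc (T / 2) (4 * T), 0 < x := fun x hx => by linarith [hx.1]
  have hk : ∀ y ∈ Icc (T / 2) (4 * T), ‖kf δ y‖ ≤ 1 := fun y hy => kf_norm hδ0 (hpos y hy).le
  have hmeq : 4 / T * (3 * L ^ 2) + C * L ^ 2 / T = mm := by rw [hmm, hC']; ring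
  have hL2 : (1 : ℝ) ≤ L ^ 2 := one_le_pow₀ hL1
  -- bounds for the products
  have W0b : ∀ y ∈ Icc (T / 2) (4 * T), ‖kf δ y * w0 A B y‖ ≤ M := fun y hy => by
    rw [norm_mul]
    exact (mul_le_of_le_one_left (norm_nonneg _) (hk y hy)).trans (hw0 y hy)
  have W1b : ∀ y ∈ Icc (T / 2) (4 * T), ‖kf δ y * w1 A y‖ ≤ M := fun y hy => by
    rw [norm_mul]
    exact (mul_le_of_le_one_left (norm_nonneg _) (hk y hy)).trans (hw1 y hy)
  have W2b : ∀ y ∈ Icc (T / 2) (4 * T), ‖kf δ y‖ ≤ M := fun y hy => by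
    have := hk y hy
    rw [hM]
    linarith
  have W0l : ∀ y ∈ Icc (T / 2) (4 * T), ‖kf δ y * w0 A B y - kf δ t * w0 A B t‖ ≤
      mm * |y - t| := fun y hy => by
    have := kf_mul_lip hT0 hδ0 hδ2 hw0 hl0 hy htm
    rwa [hmeq] at this
  have W1l : ∀ y ∈ Icc (T / 2) (4 * T), ‖kf δ y * w1 A y - kf δ t * w1 A t‖ ≤
      mm * |y - t| := fun y hy => by
    have := kf_mul_lip hT0 hδ0 hδ2 hw1 hl1 hy htm
    rwa [hmeq] at this
  have W2l : ∀ y ∈ Icc (T / 2) (4 * T), ‖kf δ y - kf δ t‖ ≤ mm * |y - t| := fun y hy => by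
    refine (kf_lip hT0 hδ0 hδ2 hy htm).trans ?_
    apply mul_le_mul_of_nonneg_right _ (abs_nonneg _)
    rw [← hmeq]
    have h1 : 4 / T * 1 ≤ 4 / T * (3 * L ^ 2) :=
      mul_le_mul_of_nonneg_left (by linarith) (by positivity)
    have h2 : 0 ≤ C * L ^ 2 / T := by positivity
    linarith
  have w0c : ContinuousOn (w0 A B) (Icc (T / 2) (4 * T)) := fun x hx =>
    (hasDeriv_w0 A B (hpos x hx)).continuousAt.continuousWithinAt
  have w1c : ContinuousOn (w1 A) (Icc (T / 2) (4 * T)) := fun x hx =>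
    (hasDeriv_w1 A (hpos x hx)).continuousAt.continuousWithinAt
  have kc : ContinuousOn (kf δ) (Icc (T / 2) (4 * T)) := (kf_cont δ).continuousOn
  -- coefficients
  have c0 : ∀ n : ℕ, n ≠ 0 → ‖LSER.cast one n‖ ≤ 1 * (1 + Real.log n) ^ 2 := by
    intro n hn
    have hn1 : (1 : ℝ) ≤ n := by exact_mod_cast Nat.one_le_iff_ne_zero.2 hn
    rw [LSER.cast_one hn]
    have := Real.log_nonneg hn1
    simp only [Pi.one_apply, norm_one]
    nlinarith
  have c1 : ∀ n : ℕ, n ≠ 0 → ‖LSER.cast lg n‖ ≤ 1 * (1 + Real.log n) ^ 2 := by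
    intro n hn
    have hn1 : (1 : ℝ) ≤ n := by exact_mod_cast Nat.one_le_iff_ne_zero.2 hn
    have h0 := Real.log_nonneg hn1
    have : LSER.cast lg n = ((Real.log n : ℝ) : ℂ) := by
      unfold LSER.cast lg
      rw [ArithmeticFunction.log_apply]
    rw [this, Complex.norm_real, Real.norm_of_nonneg h0]
    nlinarith
  have c2 : ∀ n : ℕ, n ≠ 0 → ‖((bn 0 0 n : ℝ) : ℂ)‖ ≤ CB * (1 + Real.log n) ^ 2 := by
    intro n _
    rw [Complex.norm_real, Real.norm_eq_abs]
    exact hbn n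
  set U0 : ℕ → ℝ → ℂ := fun m y => kf δ y * w0 A B y * LSeries (LSER.cast one)
    ((3 / 2 : ℝ) - y * I) * ((Real.sqrt m : ℝ) *
      Complex.exp (((-(y * Real.log m) : ℝ) : ℂ) * I)) * gf t H y with hU0
  set U1 : ℕ → ℝ → ℂ := fun m y => kf δ y * w1 A y * LSeries (LSER.cast lg)
    ((3 / 2 : ℝ) - y * I) * ((Real.sqrt m : ℝ) *
      Complex.exp (((-(y * Real.log m) : ℝ) : ℂ) * I)) * gf t H y with hU1
  set U2 : ℕ → ℝ → ℂ := fun m y => kf δ y * LSeries (fun n => ((bn 0 0 n : ℝ) : ℂ))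
    ((3 / 2 : ℝ) - y * I) * ((Real.sqrt m : ℝ) *
      Complex.exp (((-(y * Real.log m) : ℝ) : ℂ) * I)) * gf t H y with hU2
  set hs : ℂ := ((H * Real.sqrt (2 * Real.pi) : ℝ) : ℂ) with hhs
  set V0 : ℕ → ℂ := fun m => ∑' n, trm (LSER.cast one) (gw H) t m n with hV0
  set V1 : ℕ → ℂ := fun m => ∑' n, trm (LSER.cast lg) (gw H) t m n with hV1
  set V2 : ℕ → ℂ := fun m => ∑' n, trm (fun n => ((bn 0 0 n : ℝ) : ℂ)) (gw H) t m n with hV2
  set E := erb (T / 2) (4 * T) t H M mm with hE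
  have hE0 : 0 ≤ E := erb_nonneg hat htb hM0 hm0
  have A0 : ∀ m ∈ Fs, IntervalIntegrable (U0 m) volume (T / 2) (4 * T) ∧
      ‖(∫ y in (T / 2)..(4 * T), U0 m y) - kf δ t * w0 A B t * hs * V0 m‖ ≤
        1 * Sw * (Real.sqrt m * E) := fun m hm =>
    dir_avgB (LSER.cast one) 1 (by norm_num) c0 (fun y => kf δ y * w0 A B y)
      (T / 2) (4 * T) t H M mm hat htb hH hM0 hm0 (kc.mul w0c) W0b W0l m (hFs m hm)
  have A1 : ∀ m ∈ Fs, IntervalIntegrable (U1 m) volume (T / 2) (4 * T) ∧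
      ‖(∫ y in (T / 2)..(4 * T), U1 m y) - kf δ t * w1 A t * hs * V1 m‖ ≤
        1 * Sw * (Real.sqrt m * E) := fun m hm =>
    dir_avgB (LSER.cast lg) 1 (by norm_num) c1 (fun y => kf δ y * w1 A y)
      (T / 2) (4 * T) t H M mm hat htb hH hM0 hm0 (kc.mul w1c) W1b W1l m (hFs m hm)
  have A2 : ∀ m ∈ Fs, IntervalIntegrable (U2 m) volume (T / 2) (4 * T) ∧
      ‖(∫ y in (T / 2)..(4 * T), U2 m y) - kf δ t * hs * V2 m‖ ≤
        CB * Sw * (Real.sqrt m * E) := fun m hm =>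
    dir_avgB (fun n => ((bn 0 0 n : ℝ) : ℂ)) CB hCB.le c2 (kf δ)
      (T / 2) (4 * T) t H M mm hat htb hH hM0 hm0 kc W2b W2l m (hFs m hm)
  -- the integral
  have hIL : (∫ y in (T / 2)..(4 * T), DF A B (-(1 / 2) + y * I) * om0 δ (-(1 / 2) + y * I) *
      (polyB Fs β (-(1 / 2) + y * I) * GH H t (-(1 / 2) + y * I))) =
      ∑ m ∈ Fs, (β m : ℂ) * ((∫ y in (T / 2)..(4 * T), U0 m y) -
        (∫ y in (T / 2)..(4 * T), U1 m y) + ∫ y in (T / 2)..(4 * T), U2 m y) := by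
    have e1 : ∀ m ∈ Fs, (β m : ℂ) * ((∫ y in (T / 2)..(4 * T), U0 m y) -
        (∫ y in (T / 2)..(4 * T), U1 m y) + ∫ y in (T / 2)..(4 * T), U2 m y) =
        ∫ y in (T / 2)..(4 * T), (β m : ℂ) * (U0 m y - U1 m y + U2 m y) := by
      intro m hm
      rw [intervalIntegral.integral_const_mul, intervalIntegral.integral_add
        ((A0 m hm).1.sub (A1 m hm).1) (A2 m hm).1,
        intervalIntegral.integral_sub (A0 m hm).1 (A1 m hm).1]
    rw [Finset.sum_congr rfl e1, ← intervalIntegral.integral_finsetSum (fun m hm =>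
      (((A0 m hm).1.sub (A1 m hm).1).add (A2 m hm).1).const_mul _)]
    refine intervalIntegral.integral_congr fun y hy => ?_
    rw [uIcc_of_le hab] at hy
    have hy0 := hpos y hy
    have hre : 1 < (sl y).re := by simp [sl]; norm_num
    have him : (sl y).im < 0 := by simp [sl]; exact hy0
    have hz : riemannZeta (sl y) ≠ 0 := riemannZeta_ne_zero_of_one_lt_re hre
    have hf := hF A B δ (sl y) (by linarith) him hz
    have h1 := LSER.hone hre
    have h2 := LSER.hlg hre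
    have h3 := hD1 (sl y) hre
    unfold LS at h1 h2
    have hgh : GH H t (-(1 / 2) + y * I) = gf t H y := by
      unfold GH gf
      congr 2
      ring
    have hdf : FF (sl y) - deriv (deriv riemannZeta) (sl y) / 2 = DF 0 0 (sl y) := by
      unfold DF F0
      push_cast
      ring
    have hk2 : Complex.exp (δ * I * (1 - sl y)) / (1 + Complex.exp (Real.pi * I * (1 - sl y))) =
        kf δ y := rfl
    have hw0' : om (sl y) ^ 2 / 2 - deriv om (sl y) / 2 - A * om (sl y) - B = w0 A B y := rfl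
    have hw1' : om (sl y) - A = w1 A y := rfl
    rw [hk2, hw0', hw1'] at hf
    have h1' : LSeries (LSER.cast one) (sl y) = riemannZeta (sl y) := h1
    have h2' : LSeries (LSER.cast lg) (sl y) = -deriv riemannZeta (sl y) := h2
    have hs' : ((3 / 2 : ℝ) : ℂ) - y * I = sl y := rfl
    have hlhs : DF A B (-(1 / 2) + y * I) * om0 δ (-(1 / 2) + y * I) *
        (polyB Fs β (-(1 / 2) + y * I) * GH H t (-(1 / 2) + y * I)) =
        kf δ y * (w0 A B y * riemannZeta (sl y) + w1 A y * deriv riemannZeta (sl y) +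
          FF (sl y) - deriv (deriv riemannZeta) (sl y) / 2) *
        ((∑ m ∈ Fs, (β m : ℂ) *
          ((Real.sqrt m : ℝ) * Complex.exp (((-(y * Real.log m) : ℝ) : ℂ) * I))) * gf t H y) := by
      rw [hgh, polyB_left Fs β hFs y, ← one_sub_sl, hf]
    show DF A B (-(1 / 2) + y * I) * om0 δ (-(1 / 2) + y * I) *
        (polyB Fs β (-(1 / 2) + y * I) * GH H t (-(1 / 2) + y * I)) = _
    rw [hlhs, Finset.sum_mul, Finset.mul_sum]
    refine Finset.sum_congr rfl fun m _ => ?_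
    simp only [hU0, hU1, hU2]
    rw [hs', h1', h2', h3, ← hdf]
    ring
  unfold ILG
  have hgoal : (∫ y in (T / 2)..(4 * T), DF A B (-(1 / 2) + y * I) *
      om0 δ (-(1 / 2) + y * I) * (fun s => polyB Fs β s * GH H t s) (-(1 / 2) + y * I)) =
      ∑ m ∈ Fs, (β m : ℂ) * ((∫ y in (T / 2)..(4 * T), U0 m y) -
        (∫ y in (T / 2)..(4 * T), U1 m y) + ∫ y in (T / 2)..(4 * T), U2 m y) := hIL
  rw [hgoal, mul_assoc (1 / (2 * Real.pi) : ℂ), ← mul_sub, Finset.mul_sum,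
    ← Finset.sum_sub_distrib, norm_mul]
  have hn : ‖(1 / (2 * Real.pi) : ℂ)‖ ≤ 1 := by
    have : (1 / (2 * Real.pi) : ℂ) = ((1 / (2 * Real.pi) : ℝ) : ℂ) := by push_cast; ring
    rw [this, Complex.norm_real, Real.norm_of_nonneg (by positivity)]
    have := Real.pi_gt_three
    rw [div_le_one (by positivity)]
    linarith
  refine (mul_le_of_le_one_left (norm_nonneg _) hn).trans ?_
  -- the error
  have hEle : E ≤ (2 * C' + 15) * (Real.exp (1 / (2 * H ^ 2)) * L ^ 2 * H ^ 2 / T) := by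
    rw [hE]
    unfold erb
    have e1 : Real.exp (-((t - T / 2) ^ 2 / (2 * H ^ 2))) ≤ 1 :=
      Real.exp_le_one_iff.2 (neg_nonpos.2 (by positivity))
    have e2 : Real.exp (-((4 * T - t) ^ 2 / (2 * H ^ 2))) ≤ 1 :=
      Real.exp_le_one_iff.2 (neg_nonpos.2 (by positivity))
    have h3 : H ^ 2 / (t - T / 2) ≤ 4 * (H ^ 2 / T) := by
      rw [mul_div_assoc', div_le_div_iff₀ (by linarith) hT0]
      have : 0 ≤ H ^ 2 := by positivity
      nlinarith
    have h4 : H ^ 2 / (4 * T - t) ≤ 1 * (H ^ 2 / T) := by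
      rw [mul_div_assoc', div_le_div_iff₀ (by linarith) hT0]
      have : 0 ≤ H ^ 2 := by positivity
      nlinarith
    have h5 : H ^ 2 / (t - T / 2) * Real.exp (-((t - T / 2) ^ 2 / (2 * H ^ 2))) ≤
        4 * (H ^ 2 / T) :=
      (mul_le_of_le_one_right (div_nonneg (by positivity) (by linarith)) e1).trans h3
    have h6 : H ^ 2 / (4 * T - t) * Real.exp (-((4 * T - t) ^ 2 / (2 * H ^ 2))) ≤
        1 * (H ^ 2 / T) :=
      (mul_le_of_le_one_right (div_nonneg (by positivity) (by linarith)) e2).trans h4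
    have h9 : M * (H ^ 2 / (t - T / 2) * Real.exp (-((t - T / 2) ^ 2 / (2 * H ^ 2))) +
        H ^ 2 / (4 * T - t) * Real.exp (-((4 * T - t) ^ 2 / (2 * H ^ 2)))) ≤
        M * (4 * (H ^ 2 / T) + 1 * (H ^ 2 / T)) :=
      mul_le_mul_of_nonneg_left (add_le_add h5 h6) hM0
    have h10 : 2 * (mm * H ^ 2) + M * (4 * (H ^ 2 / T) + 1 * (H ^ 2 / T)) =
        (2 * C' + 15) * (L ^ 2 * H ^ 2 / T) := by
      rw [hmm, hM]
      ring
    calc Real.exp (1 / (2 * H ^ 2)) * (2 * (mm * H ^ 2) +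
        M * (H ^ 2 / (t - T / 2) * Real.exp (-((t - T / 2) ^ 2 / (2 * H ^ 2))) +
          H ^ 2 / (4 * T - t) * Real.exp (-((4 * T - t) ^ 2 / (2 * H ^ 2)))))
        ≤ Real.exp (1 / (2 * H ^ 2)) * ((2 * C' + 15) * (L ^ 2 * H ^ 2 / T)) := by
          apply mul_le_mul_of_nonneg_left _ (Real.exp_pos _).le
          rw [← h10]
          linarith
      _ = _ := by ring
  have hterm : ∀ m ∈ Fs, ‖(β m : ℂ) * ((∫ y in (T / 2)..(4 * T), U0 m y) -
        (∫ y in (T / 2)..(4 * T), U1 m y) + ∫ y in (T / 2)..(4 * T), U2 m y) -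
        hs * ((β m : ℂ) * (kf δ t * w0 A B t * V0 m - kf δ t * w1 A t * V1 m +
          kf δ t * V2 m))‖ ≤ |β m| * Real.sqrt m * ((2 + CB) * Sw * E) := by
    intro m hm
    have e : (β m : ℂ) * ((∫ y in (T / 2)..(4 * T), U0 m y) -
        (∫ y in (T / 2)..(4 * T), U1 m y) + ∫ y in (T / 2)..(4 * T), U2 m y) -
        hs * ((β m : ℂ) * (kf δ t * w0 A B t * V0 m - kf δ t * w1 A t * V1 m +
          kf δ t * V2 m)) =
        (β m : ℂ) * (((∫ y in (T / 2)..(4 * T), U0 m y) - kf δ t * w0 A B t * hs * V0 m) -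
          ((∫ y in (T / 2)..(4 * T), U1 m y) - kf δ t * w1 A t * hs * V1 m) +
          ((∫ y in (T / 2)..(4 * T), U2 m y) - kf δ t * hs * V2 m)) := by ring
    rw [e, norm_mul, Complex.norm_real, Real.norm_eq_abs, mul_assoc |β m|]
    apply mul_le_mul_of_nonneg_left _ (abs_nonneg _)
    refine (norm_add_le _ _).trans ((add_le_add ((norm_sub_le _ _).trans
      (add_le_add (A0 m hm).2 (A1 m hm).2)) (A2 m hm).2).trans (le_of_eq ?_))
    ring
  refine (norm_sum_le_of_le _ hterm).trans ?_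
  rw [← Finset.sum_mul]
  set Q : ℝ := ∑ m ∈ Fs, |β m| * Real.sqrt m with hQ
  have hQ0 : 0 ≤ Q := Finset.sum_nonneg fun m _ => by positivity
  set Z : ℝ := Real.exp (1 / (2 * H ^ 2)) * L ^ 2 * H ^ 2 / T with hZ
  have hZ0 : 0 ≤ Z := by positivity
  calc Q * ((2 + CB) * Sw * E) ≤ Q * ((2 + CB) * Sw * ((2 * C' + 15) * Z)) := by
        apply mul_le_mul_of_nonneg_left _ hQ0
        exact mul_le_mul_of_nonneg_left hEle (by positivity)
    _ ≤ ((2 + CB) * Sw * (2 * C' + 15) + 1) * Z * Q := by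
        have : 0 ≤ Z * Q := by positivity
        nlinarith

end Pool.Agent.Lib.MP_6bc78b_nt.GP.H61D
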