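import Pool.Agent.Lib.MP_6bc78b_nt.GP.Iface

/-! Project GP, module DMS, part 1: Cauchy estimates in mean square on vertical lines. -/

set_option autoImplicit false

open Complex Filter Topology MeasureTheory Set
open scoped ENNReal Real

namespace Pool.Agent.Lib.MP_6bc78b_nt.GP.H61

/-- The closed sub strip condition used below. -/
def ST (a b : ℝ) : Set ℂ := {s : ℂ | a < s.re ∧ s.re < b}

lemma isOpen_ST (a b : ℝ) : IsOpen (ST a b) :=
  (isOpen_lt continuous_const Complex.continuous_re).inter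
    (isOpen_lt Complex.continuous_re continuous_const)

/-- Cauchy-Schwarz on `[0, 2π]`. -/
lemma cs_two_pi {g : ℝ → ℝ} (hg : Continuous g) :
    (∫ θ in (0 : ℝ)..2 * π, g θ) ^ 2 ≤ 2 * π * ∫ θ in (0 : ℝ)..2 * π, g θ ^ 2 := by
  set m : ℝ := (∫ θ in (0 : ℝ)..2 * π, g θ) / (2 * π) with hm
  have hpi : 0 < 2 * π := by positivity
  have h0 : 0 ≤ ∫ θ in (0 : ℝ)..2 * π, (g θ - m) ^ 2 :=
    intervalIntegral.integral_nonneg hpi.le (fun θ _ => sq_nonneg _)
  have h1 : (∫ θ in (0 : ℝ)..2 * π, (g θ - m) ^ 2) =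
      (∫ θ in (0 : ℝ)..2 * π, g θ ^ 2) - 2 * m * (∫ θ in (0 : ℝ)..2 * π, g θ) +
        2 * π * m ^ 2 := by
    have e : ∀ θ, (g θ - m) ^ 2 = g θ ^ 2 - 2 * m * g θ + m ^ 2 := fun θ => by ring
    simp_rw [e]
    rw [intervalIntegral.integral_add, intervalIntegral.integral_sub,
      intervalIntegral.integral_const_mul, intervalIntegral.integral_const]
    · simp
    · exact (hg.pow 2).intervalIntegrable _ _
    · exact (continuous_const.mul hg).intervalIntegrable _ _
    · exact ((hg.pow 2).sub (continuous_const.mul hg)).intervalIntegrable _ _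
    · exact continuous_const.intervalIntegrable _ _
  have h2 : (∫ θ in (0 : ℝ)..2 * π, g θ) = 2 * π * m := by
    rw [hm]; field_simp
  rw [h1, h2] at h0
  rw [h2]
  nlinarith

/-- Pointwise: the derivative is bounded by the square mean on a circle. -/
lemma deriv_sq_le {f : ℂ → ℂ} {a b : ℝ} (hf : DifferentiableOn ℂ f (ST a b)) {s : ℂ} {r : ℝ}
    (hr : 0 < r) (h1 : a < s.re - r) (h2 : s.re + r < b) :
    ‖deriv f s‖ ^ 2 ≤ (1 / (2 * π * r ^ 2)) * ∫ θ in (0 : ℝ)..2 * π, ‖f (circleMap s r θ)‖ ^ 2 := by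
  have hsub : Metric.closedBall s r ⊆ ST a b := by
    intro z hz
    rw [Metric.mem_closedBall, Complex.dist_eq] at hz
    have := (Complex.abs_re_le_norm (z - s)).trans hz
    rw [Complex.sub_re, abs_le] at this
    exact ⟨by linarith [this.1], by linarith [this.2]⟩
  have hcont : Continuous (fun θ : ℝ => ‖f (circleMap s r θ)‖) := by
    refine continuous_norm.comp ?_
    refine (hf.continuousOn).comp_continuous (continuous_circleMap s r) ?_
    intro θ
    exact hsub (circleMap_mem_closedBall s hr.le θ)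
  have hC := (hf.mono hsub).deriv_eq_smul_circleIntegral hr
  have hn : 2 * π * ‖deriv f s‖ ≤ (1 / r) * ∫ θ in (0 : ℝ)..2 * π, ‖f (circleMap s r θ)‖ := by
    have e1 : ‖(2 * π * I : ℂ) • deriv f s‖ = 2 * π * ‖deriv f s‖ := by
      rw [norm_smul]
      simp [abs_of_pos Real.pi_pos]
    rw [← e1, ← hC, circleIntegral]
    refine (intervalIntegral.norm_integral_le_integral_norm (by positivity)).trans ?_
    rw [← intervalIntegral.integral_const_mul]
    refine le_of_eq (intervalIntegral.integral_congr ?_)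
    intro θ _
    simp only [deriv_circleMap, norm_smul, norm_mul, Complex.norm_I, mul_one, norm_circleMap_zero,
      circleMap_sub_center, norm_div, norm_one, norm_pow, abs_of_pos hr]
    field_simp
  have hcs := cs_two_pi hcont
  have hpi : 0 < 2 * π := by positivity
  set J := ∫ θ in (0 : ℝ)..2 * π, ‖f (circleMap s r θ)‖ with hJ
  set J2 := ∫ θ in (0 : ℝ)..2 * π, ‖f (circleMap s r θ)‖ ^ 2 with hJ2
  have hx : ‖deriv f s‖ ≤ J / (2 * π * r) := by
    rw [le_div_iff₀ (by positivity)]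
    have := mul_le_mul_of_nonneg_left hn hr.le
    have e : r * (1 / r * J) = J := by field_simp
    rw [e] at this
    linarith
  have hJ0 : 0 ≤ J := intervalIntegral.integral_nonneg hpi.le (fun θ _ => norm_nonneg _)
  calc ‖deriv f s‖ ^ 2 ≤ (J / (2 * π * r)) ^ 2 := by gcongr
    _ = J ^ 2 / (2 * π * r) ^ 2 := by ring
    _ ≤ (2 * π * J2) / (2 * π * r) ^ 2 := by gcongr
    _ = 1 / (2 * π * r ^ 2) * J2 := by field_simp

/-- The weighted square mean on a vertical line, as a lower integral. -/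
noncomputable def QM (f : ℂ → ℂ) (κ σ : ℝ) : ℝ≥0∞ :=
  ∫⁻ w : ℝ, ENNReal.ofReal (‖f (σ + w * I)‖ ^ 2 * Real.exp (-(κ * |w|)))

lemma circle_pt (σ w r θ : ℝ) :
    circleMap (σ + w * I) r θ = ((σ + r * Real.cos θ : ℝ) : ℂ) + ((w + r * Real.sin θ : ℝ) : ℂ) * I := by
  rw [circleMap, Complex.exp_mul_I]
  push_cast
  ring

/-- **Mean square Cauchy estimate.** -/
theorem circ {f : ℂ → ℂ} {a b : ℝ} (hf : DifferentiableOn ℂ f (ST a b)) {κ σ r : ℝ} (hκ : 0 ≤ κ)
    (hr : 0 < r) (h1 : a < σ - r) (h2 : σ + r < b) (M : ℝ≥0∞)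
    (hM : ∀ σ' : ℝ, σ - r ≤ σ' → σ' ≤ σ + r → QM f κ σ' ≤ M) :
    QM (deriv f) κ σ ≤ ENNReal.ofReal (Real.exp (κ * r) / r ^ 2) * M := by
  have hpi : 0 < 2 * π := by positivity
  have hmem : ∀ w θ : ℝ, circleMap (σ + w * I) r θ ∈ ST a b := by
    intro w θ
    rw [circle_pt]
    have hc := Real.neg_one_le_cos θ
    have hc' := Real.cos_le_one θ
    have hre : (((σ + r * Real.cos θ : ℝ) : ℂ) + ((w + r * Real.sin θ : ℝ) : ℂ) * I).re =
        σ + r * Real.cos θ := by
      simp only [Complex.add_re, Complex.ofReal_re, Complex.mul_re, Complex.I_re, mul_zero,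
        Complex.ofReal_im, Complex.I_im, mul_one, sub_self, add_zero]
    refine ⟨?_, ?_⟩
    · rw [hre]; nlinarith
    · rw [hre]; nlinarith
  have hcont2 : Continuous (fun p : ℝ × ℝ => ‖f (circleMap (σ + p.1 * I) r p.2)‖ ^ 2) := by
    refine (continuous_norm.comp ?_).pow 2
    refine hf.continuousOn.comp_continuous ?_ (fun p => hmem p.1 p.2)
    unfold circleMap
    fun_prop
  have hcont1 : ∀ w : ℝ, Continuous (fun θ : ℝ => ‖f (circleMap (σ + w * I) r θ)‖ ^ 2) := by
    intro w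
    exact hcont2.comp (by fun_prop : Continuous (fun θ : ℝ => ((w, θ) : ℝ × ℝ)))
  -- pointwise bound
  have hpt : ∀ w : ℝ, ENNReal.ofReal (‖deriv f (σ + w * I)‖ ^ 2 * Real.exp (-(κ * |w|))) ≤
      ENNReal.ofReal (1 / (2 * π * r ^ 2)) * ∫⁻ θ in Ioc (0 : ℝ) (2 * π),
        ENNReal.ofReal (‖f (circleMap (σ + w * I) r θ)‖ ^ 2 * Real.exp (-(κ * |w|))) := by
    intro w
    have hd := deriv_sq_le hf (s := σ + w * I) hr (by simpa using h1) (by simpa using h2)
    have e1 : (∫⁻ θ in Ioc (0 : ℝ) (2 * π),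
        ENNReal.ofReal (‖f (circleMap (σ + w * I) r θ)‖ ^ 2 * Real.exp (-(κ * |w|)))) =
        ENNReal.ofReal (∫ θ in (0 : ℝ)..2 * π,
          ‖f (circleMap (σ + w * I) r θ)‖ ^ 2 * Real.exp (-(κ * |w|))) := by
      rw [intervalIntegral.integral_of_le hpi.le, ofReal_integral_eq_lintegral_ofReal]
      · exact ((hcont1 w).mul continuous_const).integrableOn_Ioc
      · exact Eventually.of_forall (fun θ => by positivity)
    rw [e1, ← ENNReal.ofReal_mul (by positivity), intervalIntegral.integral_mul_const]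
    refine ENNReal.ofReal_le_ofReal ?_
    calc ‖deriv f (σ + w * I)‖ ^ 2 * Real.exp (-(κ * |w|)) ≤
        (1 / (2 * π * r ^ 2) * ∫ θ in (0 : ℝ)..2 * π, ‖f (circleMap (σ + w * I) r θ)‖ ^ 2) *
          Real.exp (-(κ * |w|)) := by gcongr
      _ = _ := by ring
  have hinner : ∀ θ : ℝ, ∫⁻ w : ℝ,
      ENNReal.ofReal (‖f (circleMap (σ + w * I) r θ)‖ ^ 2 * Real.exp (-(κ * |w|))) ≤
      ENNReal.ofReal (Real.exp (κ * r)) * M := by
    intro θ
    have hc := Real.neg_one_le_cos θ
    have hc' := Real.cos_le_one θ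
    have hs : |Real.sin θ| ≤ 1 := Real.abs_sin_le_one θ
    set σ' : ℝ := σ + r * Real.cos θ with hσ'
    have hM' := hM σ' (by rw [hσ']; nlinarith) (by rw [hσ']; nlinarith)
    have hstep : ∀ w : ℝ,
        ENNReal.ofReal (‖f (circleMap (σ + w * I) r θ)‖ ^ 2 * Real.exp (-(κ * |w|))) ≤
        ENNReal.ofReal (Real.exp (κ * r)) *
          (fun v : ℝ => ENNReal.ofReal (‖f (σ' + v * I)‖ ^ 2 * Real.exp (-(κ * |v|))))
            (w + r * Real.sin θ) := by
      intro w
      have e0 : circleMap (σ + w * I) r θ = (σ' : ℂ) + ((w + r * Real.sin θ : ℝ) : ℂ) * I := by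
        rw [circle_pt]
      simp only
      rw [e0, ← ENNReal.ofReal_mul (Real.exp_pos _).le]
      refine ENNReal.ofReal_le_ofReal ?_
      have hexp : Real.exp (-(κ * |w|)) ≤
          Real.exp (κ * r) * Real.exp (-(κ * |w + r * Real.sin θ|)) := by
        rw [← Real.exp_add]
        refine Real.exp_le_exp.mpr ?_
        have h3 : |w + r * Real.sin θ| ≤ |w| + r := by
          refine (abs_add_le _ _).trans ?_
          rw [abs_mul, abs_of_pos hr]
          nlinarith
        nlinarith [mul_le_mul_of_nonneg_left h3 hκ]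
      calc _ ≤ ‖f ((σ' : ℂ) + ((w + r * Real.sin θ : ℝ) : ℂ) * I)‖ ^ 2 *
            (Real.exp (κ * r) * Real.exp (-(κ * |w + r * Real.sin θ|))) := by gcongr
        _ = _ := by ring
    calc _ ≤ ∫⁻ w : ℝ, ENNReal.ofReal (Real.exp (κ * r)) *
          (fun v : ℝ => ENNReal.ofReal (‖f (σ' + v * I)‖ ^ 2 * Real.exp (-(κ * |v|))))
            (w + r * Real.sin θ) := lintegral_mono hstep
      _ = ENNReal.ofReal (Real.exp (κ * r)) * QM f κ σ' := by
        rw [lintegral_const_mul' _ _ ENNReal.ofReal_ne_top]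
        congr 1
        exact lintegral_add_right_eq_self
          (fun v : ℝ => ENNReal.ofReal (‖f (σ' + v * I)‖ ^ 2 * Real.exp (-(κ * |v|)))) _
      _ ≤ _ := by gcongr
  calc QM (deriv f) κ σ ≤ ∫⁻ w : ℝ, ENNReal.ofReal (1 / (2 * π * r ^ 2)) *
        ∫⁻ θ in Ioc (0 : ℝ) (2 * π),
          ENNReal.ofReal (‖f (circleMap (σ + w * I) r θ)‖ ^ 2 * Real.exp (-(κ * |w|))) :=
        lintegral_mono hpt
    _ = ENNReal.ofReal (1 / (2 * π * r ^ 2)) * ∫⁻ w : ℝ, ∫⁻ θ in Ioc (0 : ℝ) (2 * π),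
          ENNReal.ofReal (‖f (circleMap (σ + w * I) r θ)‖ ^ 2 * Real.exp (-(κ * |w|))) :=
        lintegral_const_mul' _ _ ENNReal.ofReal_ne_top
    _ = ENNReal.ofReal (1 / (2 * π * r ^ 2)) * ∫⁻ θ in Ioc (0 : ℝ) (2 * π), ∫⁻ w : ℝ,
          ENNReal.ofReal (‖f (circleMap (σ + w * I) r θ)‖ ^ 2 * Real.exp (-(κ * |w|))) := by
        congr 1
        refine lintegral_lintegral_swap ?_
        refine Measurable.aemeasurable ?_
        refine ENNReal.measurable_ofReal.comp ?_
        refine Continuous.measurable ?_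
        refine Continuous.mul hcont2 ?_
        fun_prop
    _ ≤ ENNReal.ofReal (1 / (2 * π * r ^ 2)) * ∫⁻ θ in Ioc (0 : ℝ) (2 * π),
          ENNReal.ofReal (Real.exp (κ * r)) * M := by
        gcongr with θ
        exact hinner θ
    _ = ENNReal.ofReal (Real.exp (κ * r) / r ^ 2) * M := by
        rw [setLIntegral_const, Real.volume_Ioc, sub_zero]
        have e : ENNReal.ofReal (1 / (2 * π * r ^ 2)) * (ENNReal.ofReal (Real.exp (κ * r)) * M *
            ENNReal.ofReal (2 * π)) = (ENNReal.ofReal (1 / (2 * π * r ^ 2)) *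
            ENNReal.ofReal (Real.exp (κ * r)) * ENNReal.ofReal (2 * π)) * M := by ring
        rw [e, ← ENNReal.ofReal_mul (by positivity), ← ENNReal.ofReal_mul (by positivity)]
        congr 2
        field_simp

end Pool.Agent.Lib.MP_6bc78b_nt.GP.H61
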