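import Pool.Agent.Lib.MP_6bc78b_nt.GP.H61.Circ

/-! Project GP, module DMS: second moment of `D Γ` on the line `Re s = 1/2 + 1/log T`. -/

set_option autoImplicit false

open Complex Filter Topology MeasureTheory Set
open scoped ENNReal Real

namespace Pool.Agent.Lib.MP_6bc78b_nt.GP.H61

lemma zeta_diff : DifferentiableOn ℂ riemannZeta (ST 0 1) := by
  intro s hs
  refine (differentiableAt_riemannZeta ?_).differentiableWithinAt
  intro h
  have := hs.2
  rw [h] at this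
  simp at this

lemma dzeta_diff : DifferentiableOn ℂ (deriv riemannZeta) (ST 0 1) :=
  zeta_diff.deriv (isOpen_ST 0 1)

lemma ddzeta_diff : DifferentiableOn ℂ (deriv (deriv riemannZeta)) (ST 0 1) :=
  dzeta_diff.deriv (isOpen_ST 0 1)

/-- `ZMS` as a bound for `QM`. -/
lemma qm_zeta (h : ZMSStatement) : ∃ C : ℝ, 0 < C ∧ ∀ σ κ : ℝ, 1 / 2 ≤ σ → σ ≤ 3 / 4 → 0 < κ →
    κ ≤ 1 → QM riemannZeta κ σ ≤ ENNReal.ofReal (C * Real.log (3 / κ) / κ) := by
  obtain ⟨C, hC, h1⟩ := h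
  refine ⟨C, hC, fun σ κ a b c d => ?_⟩
  obtain ⟨hi, hb⟩ := h1 σ κ a b c d
  unfold QM
  rw [← ofReal_integral_eq_lintegral_ofReal hi (Eventually.of_forall (fun w => by positivity))]
  exact ENNReal.ofReal_le_ofReal hb

/-- Second moments of the derivatives, `L = log T`, radius `1/(4L)` twice. -/
lemma qm_derivs (h : ZMSStatement) : ∃ C : ℝ, 0 < C ∧ ∀ L κ : ℝ, 8 ≤ L → 0 < κ → κ ≤ 1 →
    QM riemannZeta κ (1 / 2 + 1 / L) ≤ ENNReal.ofReal (C * Real.log (3 / κ) / κ) ∧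
    QM (deriv riemannZeta) κ (1 / 2 + 1 / L) ≤ ENNReal.ofReal (C * L ^ 2 * Real.log (3 / κ) / κ) ∧
    QM (deriv (deriv riemannZeta)) κ (1 / 2 + 1 / L) ≤
      ENNReal.ofReal (C * L ^ 4 * Real.log (3 / κ) / κ) := by
  obtain ⟨C, hC, h1⟩ := qm_zeta h
  refine ⟨9 * 256 * C, by positivity, fun L κ hL hκ hκ1 => ?_⟩
  have hL0 : 0 < L := by linarith
  have hlog : 0 ≤ Real.log (3 / κ) := Real.log_nonneg (by rw [le_div_iff₀ hκ]; linarith)
  have hiL : 1 / L ≤ 1 / 8 := one_div_le_one_div_of_le (by norm_num) hL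
  have hiL0 : 0 < 1 / L := by positivity
  have hr : 0 < 1 / (4 * L) := by positivity
  have hr' : 1 / (4 * L) = (1 / L) / 4 := by field_simp
  have hexp : Real.exp (κ * (1 / (4 * L))) ≤ 3 := by
    have : κ * (1 / (4 * L)) ≤ 1 := by rw [hr']; nlinarith
    exact (Real.exp_le_exp.mpr this).trans (by linarith [Real.exp_one_lt_d9])
  have hfac : Real.exp (κ * (1 / (4 * L))) / (1 / (4 * L)) ^ 2 ≤ 48 * L ^ 2 := by
    have e : (1 / (4 * L)) ^ 2 = 1 / (16 * L ^ 2) := by ring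
    rw [e, div_div_eq_mul_div, div_one]
    nlinarith [sq_nonneg L, Real.exp_pos (κ * (1 / (4 * L)))]
  -- first derivative, on a range of lines
  have hd1 : ∀ σ : ℝ, 1 / 2 + 1 / L - 1 / (4 * L) ≤ σ → σ ≤ 1 / 2 + 1 / L + 1 / (4 * L) →
      QM (deriv riemannZeta) κ σ ≤ ENNReal.ofReal (48 * L ^ 2 * (C * Real.log (3 / κ) / κ)) := by
    intro σ ha hb
    have := circ zeta_diff hκ.le hr (σ := σ) (by rw [hr'] at *; linarith)
      (by rw [hr'] at *; linarith) (ENNReal.ofReal (C * Real.log (3 / κ) / κ))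
      (fun σ' h2 h3 => h1 σ' κ (by rw [hr'] at *; linarith) (by rw [hr'] at *; linarith) hκ hκ1)
    refine this.trans ?_
    rw [← ENNReal.ofReal_mul (by positivity)]
    refine ENNReal.ofReal_le_ofReal ?_
    exact mul_le_mul_of_nonneg_right hfac (by positivity)
  have hd2 : QM (deriv (deriv riemannZeta)) κ (1 / 2 + 1 / L) ≤
      ENNReal.ofReal (48 * L ^ 2 * (48 * L ^ 2 * (C * Real.log (3 / κ) / κ))) := by
    have := circ dzeta_diff hκ.le hr (σ := 1 / 2 + 1 / L) (by rw [hr'] at *; linarith)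
      (by rw [hr'] at *; linarith) _ hd1
    refine this.trans ?_
    rw [← ENNReal.ofReal_mul (by positivity)]
    refine ENNReal.ofReal_le_ofReal ?_
    exact mul_le_mul_of_nonneg_right hfac (by positivity)
  have hQ : 0 ≤ C * Real.log (3 / κ) / κ := by positivity
  refine ⟨?_, ?_, ?_⟩
  · refine (h1 _ κ (by linarith) (by linarith) hκ hκ1).trans (ENNReal.ofReal_le_ofReal ?_)
    have e : 9 * 256 * C * Real.log (3 / κ) / κ = 9 * 256 * (C * Real.log (3 / κ) / κ) := by ring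
    rw [e]; nlinarith
  · refine (hd1 _ (by linarith) (by linarith)).trans (ENNReal.ofReal_le_ofReal ?_)
    have e : 9 * 256 * C * L ^ 2 * Real.log (3 / κ) / κ =
      9 * 256 * L ^ 2 * (C * Real.log (3 / κ) / κ) := by ring
    rw [e]
    have h5 : 0 ≤ L ^ 2 * (C * Real.log (3 / κ) / κ) := by positivity
    nlinarith
  · refine hd2.trans (ENNReal.ofReal_le_ofReal (le_of_eq ?_))
    ring

/-- The weight. -/
lemma weight_le {L κ w : ℝ} (hL : 8 ≤ L) (hκ : 0 < κ) (hκ1 : κ ≤ 1)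
    (hlog : Real.log (3 / κ) ≤ 3 * L) :
    Real.log (3 + |w|) ^ 2 * (1 + |w|) ^ (2 / L) * Real.exp (-(κ * |w|)) ≤
      144 * Real.exp 6 * L ^ 2 := by
  have hw : 0 ≤ |w| := abs_nonneg w
  set x := κ * |w| with hx
  have hx0 : 0 ≤ x := by positivity
  have h3 : 3 + |w| ≤ 3 / κ * (1 + x) := by
    have : 3 / κ * (1 + x) = 3 / κ + 3 * |w| := by rw [hx]; field_simp
    rw [this]
    have : 3 ≤ 3 / κ := by rw [le_div_iff₀ hκ]; linarith
    linarith
  have h3k : 0 < 3 / κ := by positivity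
  have hl : Real.log (3 + |w|) ≤ 3 * L + x := by
    calc Real.log (3 + |w|) ≤ Real.log (3 / κ * (1 + x)) := Real.log_le_log (by positivity) h3
      _ = Real.log (3 / κ) + Real.log (1 + x) := Real.log_mul (by positivity) (by positivity)
      _ ≤ 3 * L + x := by
        have := Real.log_le_sub_one_of_pos (by linarith : 0 < 1 + x)
        linarith
  have hl0 : 0 ≤ Real.log (3 + |w|) := Real.log_nonneg (by linarith)
  have hp : (1 + |w|) ^ (2 / L) ≤ Real.exp 6 * Real.exp (x / 4) := by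
    rw [Real.rpow_def_of_pos (by positivity), ← Real.exp_add]
    refine Real.exp_le_exp.mpr ?_
    have h4 : Real.log (1 + |w|) ≤ 3 * L + x :=
      (Real.log_le_log (by positivity) (by linarith)).trans hl
    have h5 : Real.log (1 + |w|) * (2 / L) ≤ (3 * L + x) * (2 / L) :=
      mul_le_mul_of_nonneg_right h4 (by positivity)
    have h6 : (3 * L + x) * (2 / L) = 6 + x * (2 / L) := by
      have hL' : L ≠ 0 := by linarith
      field_simp
      ring
    have h7 : 2 / L ≤ 1 / 4 := by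
      rw [div_le_div_iff₀ (by linarith) (by norm_num)]; linarith
    have h8 : x * (2 / L) ≤ x * (1 / 4) := mul_le_mul_of_nonneg_left h7 hx0
    linarith
  have hq : (3 * L + x) ≤ 3 * L * (4 * Real.exp (x / 4)) := by
    have h9 : x / 4 + 1 ≤ Real.exp (x / 4) := Real.add_one_le_exp _
    have : 3 * L + x ≤ 3 * L * (4 * (x / 4 + 1)) := by nlinarith
    refine this.trans ?_
    gcongr
  have hsq : Real.log (3 + |w|) ^ 2 ≤ 144 * L ^ 2 * Real.exp (x / 2) := by
    calc Real.log (3 + |w|) ^ 2 ≤ (3 * L * (4 * Real.exp (x / 4))) ^ 2 := by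
          gcongr
          exact hl.trans hq
      _ = 144 * L ^ 2 * (Real.exp (x / 4) * Real.exp (x / 4)) := by ring
      _ = 144 * L ^ 2 * Real.exp (x / 2) := by rw [← Real.exp_add]; ring_nf
  calc Real.log (3 + |w|) ^ 2 * (1 + |w|) ^ (2 / L) * Real.exp (-x) ≤
      (144 * L ^ 2 * Real.exp (x / 2)) * (Real.exp 6 * Real.exp (x / 4)) * Real.exp (-x) := by
        gcongr
    _ = 144 * Real.exp 6 * L ^ 2 * (Real.exp (x / 2) * Real.exp (x / 4) * Real.exp (-x)) := by ring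
    _ = 144 * Real.exp 6 * L ^ 2 * Real.exp (-(x / 4)) := by
      rw [← Real.exp_add, ← Real.exp_add]; ring_nf
    _ ≤ 144 * Real.exp 6 * L ^ 2 * 1 := by
      gcongr
      exact Real.exp_le_one_iff.mpr (by linarith)
    _ = _ := by ring

/-- The Gamma factor. -/
lemma gamma_le {CG L κ φ w : ℝ}
    (hG : ‖Complex.Gamma (((1 / 2 + 1 / L : ℝ) : ℂ) + w * I)‖ ≤
      CG * (1 + |w|) ^ ((1 / 2 + 1 / L) - 1 / 2 : ℝ) * Real.exp (-(Real.pi / 2 * |w|)))
    (hφ : |φ| ≤ Real.pi / 2 - κ) :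
    ‖Complex.Gamma (((1 / 2 + 1 / L : ℝ) : ℂ) + w * I)‖ ^ 2 * Real.exp (2 * φ * w) ≤
      CG ^ 2 * (1 + |w|) ^ (2 / L) * Real.exp (-(κ * |w|)) * Real.exp (-(κ * |w|)) := by
  have hw : 0 ≤ |w| := abs_nonneg w
  have h1 : ‖Complex.Gamma (((1 / 2 + 1 / L : ℝ) : ℂ) + w * I)‖ ^ 2 ≤
      (CG * (1 + |w|) ^ ((1 / 2 + 1 / L) - 1 / 2 : ℝ) * Real.exp (-(Real.pi / 2 * |w|))) ^ 2 := by
    gcongr
  have h2 : φ * w ≤ (Real.pi / 2 - κ) * |w| := by
    calc φ * w ≤ |φ * w| := le_abs_self _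
      _ = |φ| * |w| := abs_mul _ _
      _ ≤ _ := mul_le_mul_of_nonneg_right hφ hw
  have h3 : ((1 + |w|) ^ ((1 / 2 + 1 / L) - 1 / 2 : ℝ)) ^ 2 = (1 + |w|) ^ (2 / L) := by
    rw [← Real.rpow_natCast, ← Real.rpow_mul (by positivity)]
    congr 1
    push_cast
    ring
  calc _ ≤ (CG * (1 + |w|) ^ ((1 / 2 + 1 / L) - 1 / 2 : ℝ) *
          Real.exp (-(Real.pi / 2 * |w|))) ^ 2 * Real.exp (2 * φ * w) := by gcongr
    _ = CG ^ 2 * ((1 + |w|) ^ ((1 / 2 + 1 / L) - 1 / 2 : ℝ)) ^ 2 *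
          (Real.exp (-(Real.pi / 2 * |w|)) * Real.exp (-(Real.pi / 2 * |w|)) *
            Real.exp (2 * φ * w)) := by ring
    _ = CG ^ 2 * (1 + |w|) ^ (2 / L) * Real.exp (2 * φ * w - Real.pi * |w|) := by
      rw [h3, ← Real.exp_add, ← Real.exp_add]
      ring_nf
    _ ≤ CG ^ 2 * (1 + |w|) ^ (2 / L) * Real.exp (-(κ * |w|) + -(κ * |w|)) := by
      gcongr
      linarith
    _ = _ := by rw [Real.exp_add]; ring

lemma df_norm_le {A B : ℝ} {s : ℂ} {m : ℝ} (hm : 1 ≤ m)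
    (h : ‖logDeriv riemannZeta s‖ ≤ m) :
    ‖DF A B s‖ ^ 2 ≤ 4 * (1 + A ^ 2 + B ^ 2) * (m ^ 2 * ‖deriv riemannZeta s‖ ^ 2 +
      ‖deriv (deriv riemannZeta) s‖ ^ 2 + ‖riemannZeta s‖ ^ 2) := by
  have e : DF A B s = logDeriv riemannZeta s * deriv riemannZeta s -
      deriv (deriv riemannZeta) s / 2 + A * deriv riemannZeta s - B * riemannZeta s := by
    unfold DF FF F0 logDeriv
    simp only [Pi.div_apply]
    ring
  set x := ‖deriv riemannZeta s‖ with hx
  set y := ‖deriv (deriv riemannZeta) s‖ with hy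
  set z := ‖riemannZeta s‖ with hz
  have h1 : ‖DF A B s‖ ≤ m * x + y / 2 + |A| * x + |B| * z := by
    rw [e]
    refine (norm_sub_le _ _).trans ?_
    refine add_le_add ((norm_add_le _ _).trans (add_le_add ((norm_sub_le _ _).trans
      (add_le_add ?_ ?_)) ?_)) ?_
    · rw [norm_mul]; gcongr
    · rw [norm_div]; simp [hy]
    · rw [norm_mul, Complex.norm_real, Real.norm_eq_abs]
    · rw [norm_mul, Complex.norm_real, Real.norm_eq_abs]
  have hx0 : 0 ≤ x := norm_nonneg _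
  have hy0 : 0 ≤ y := norm_nonneg _
  have hz0 : 0 ≤ z := norm_nonneg _
  have h2 : (m * x + y / 2 + |A| * x + |B| * z) ^ 2 ≤
      4 * ((m * x) ^ 2 + (y / 2) ^ 2 + (|A| * x) ^ 2 + (|B| * z) ^ 2) := by
    nlinarith [sq_nonneg (m * x - y / 2), sq_nonneg (m * x - |A| * x), sq_nonneg (m * x - |B| * z),
      sq_nonneg (y / 2 - |A| * x), sq_nonneg (y / 2 - |B| * z), sq_nonneg (|A| * x - |B| * z)]
  have h3 : ‖DF A B s‖ ^ 2 ≤ (m * x + y / 2 + |A| * x + |B| * z) ^ 2 := by gcongr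
  refine h3.trans (h2.trans ?_)
  have hA : (|A| * x) ^ 2 = A ^ 2 * x ^ 2 := by rw [mul_pow, sq_abs]
  have hB : (|B| * z) ^ 2 = B ^ 2 * z ^ 2 := by rw [mul_pow, sq_abs]
  rw [hA, hB]
  have hm2 : 1 ≤ m ^ 2 := one_le_pow₀ hm
  have p1 : A ^ 2 * x ^ 2 ≤ A ^ 2 * (m ^ 2 * x ^ 2) := by
    refine mul_le_mul_of_nonneg_left ?_ (sq_nonneg A)
    nlinarith [sq_nonneg x]
  have p2 : 0 ≤ A ^ 2 * y ^ 2 := by positivity
  have p3 : 0 ≤ A ^ 2 * z ^ 2 := by positivity
  have p4 : 0 ≤ B ^ 2 * (m ^ 2 * x ^ 2) := by positivity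
  have p5 : 0 ≤ B ^ 2 * y ^ 2 := by positivity
  have p6 : 0 ≤ z ^ 2 := by positivity
  have p7 : 0 ≤ y ^ 2 := by positivity
  nlinarith

/-- **DMS.** -/
theorem dms (hR : RHBStatement) (hZ : ZMSStatement) (hG : GAMBStatement) : DMSStatement := by
  intro hRH A B D hD
  obtain ⟨hdiff, hDF⟩ := hD
  obtain ⟨CR, hCR, hR'⟩ := hR hRH
  obtain ⟨CG, hCG, hG'⟩ := hG
  obtain ⟨CZ, hCZ, hZ'⟩ := qm_derivs hZ
  set K : ℝ := 4 * (1 + A ^ 2 + B ^ 2) * CG ^ 2 * (144 * Real.exp 6) * (1 + CR) ^ 2 with hK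
  have hK0 : 0 < K := by positivity
  refine ⟨K * CZ * 9, Real.exp 8, by positivity, ?_, ?_⟩
  · have := Real.add_one_lt_exp (by norm_num : (8 : ℝ) ≠ 0)
    have h2 : Real.exp 8 = Real.exp 4 * Real.exp 4 := by rw [← Real.exp_add]; norm_num
    have h3 := Real.add_one_lt_exp (by norm_num : (4 : ℝ) ≠ 0)
    nlinarith
  intro T κ φ hT hκT hκ1 hφ
  set L := Real.log T with hLdef
  have hT0 : 0 < T := lt_of_lt_of_le (Real.exp_pos 8) hT
  have hL : 8 ≤ L := by
    rw [hLdef, ← Real.log_exp 8]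
    exact Real.log_le_log (Real.exp_pos 8) hT
  have hL0 : 0 < L := by linarith
  have hκ : 0 < κ := lt_of_lt_of_le (by positivity) hκT
  have hlogk : Real.log (3 / κ) ≤ 3 * L := by
    have h1 : 3 / κ ≤ 3 * T ^ 2 := by
      rw [div_le_iff₀ hκ]
      have : 1 / T ^ 2 * T ^ 2 = 1 := by field_simp
      have h2 : 1 ≤ κ * T ^ 2 := by
        rw [← this]; gcongr
      linarith
    calc Real.log (3 / κ) ≤ Real.log (3 * T ^ 2) := Real.log_le_log (by positivity) h1
      _ = Real.log 3 + 2 * L := by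
        rw [Real.log_mul (by norm_num) (by positivity), Real.log_pow]
        push_cast
        ring
      _ ≤ 3 * L := by
        have : Real.log 3 ≤ 3 - 1 := Real.log_le_sub_one_of_pos (by norm_num)
        linarith
  have hc : cT T = 1 / 2 + 1 / L := rfl
  have hiL : 1 / L ≤ 1 / 8 := one_div_le_one_div_of_le (by norm_num) hL
  have hiL0 : 0 < 1 / L := by positivity
  obtain ⟨q0, q1, q2⟩ := hZ' L κ hL hκ hκ1
  have hre : ∀ w : ℝ, (((1 / 2 + 1 / L : ℝ) : ℂ) + w * I).re = 1 / 2 + 1 / L := fun w => by simp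
  rw [hc]
  -- pointwise bound
  have hpt : ∀ w : ℝ, ‖D (((1 / 2 + 1 / L : ℝ) : ℂ) + w * I) *
      Complex.Gamma (((1 / 2 + 1 / L : ℝ) : ℂ) + w * I)‖ ^ 2 * Real.exp (2 * φ * w) ≤
      K * L ^ 4 * (‖deriv riemannZeta (((1 / 2 + 1 / L : ℝ) : ℂ) + w * I)‖ ^ 2 *
        Real.exp (-(κ * |w|))) +
      K * L ^ 2 * (‖deriv (deriv riemannZeta) (((1 / 2 + 1 / L : ℝ) : ℂ) + w * I)‖ ^ 2 *
        Real.exp (-(κ * |w|))) +
      K * L ^ 2 * (‖riemannZeta (((1 / 2 + 1 / L : ℝ) : ℂ) + w * I)‖ ^ 2 *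
        Real.exp (-(κ * |w|))) := by
    intro w
    set s : ℂ := ((1 / 2 + 1 / L : ℝ) : ℂ) + w * I with hs
    have hsre : s.re = 1 / 2 + 1 / L := hre w
    have hsHP : s ∈ HP := by
      show 1 / 2 < s.re
      rw [hsre]; linarith
    have hs1 : s ≠ 1 := by
      intro h
      rw [h] at hsre
      simp only [Complex.one_re] at hsre
      linarith
    rw [hDF s hsHP hs1]
    have hlog1 : 1 ≤ Real.log (3 + |w|) := by
      rw [Real.le_log_iff_exp_le (by positivity)]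
      have := Real.exp_one_lt_d9
      linarith [abs_nonneg w]
    have hld : ‖logDeriv riemannZeta s‖ ≤ CR * Real.log (3 + |w|) * L := by
      have := hR' (1 / 2 + 1 / L) w (by linarith) (by linarith)
      have e : CR * Real.log (3 + |w|) / (1 / 2 + 1 / L - 1 / 2) = CR * Real.log (3 + |w|) * L := by
        have : (1 / 2 + 1 / L - 1 / 2 : ℝ) = 1 / L := by ring
        rw [this]; field_simp
      rw [e] at this
      exact this
    have hld' : ‖logDeriv riemannZeta s‖ ≤ (1 + CR) * Real.log (3 + |w|) * L := by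
      refine hld.trans ?_
      have : 0 ≤ Real.log (3 + |w|) * L := by positivity
      nlinarith
    have hm1 : 1 ≤ (1 + CR) * Real.log (3 + |w|) * L := by
      have h1 : 1 ≤ (1 + CR) * Real.log (3 + |w|) := by nlinarith
      nlinarith
    have hdf := df_norm_le (A := A) (B := B) hm1 hld'
    have hgam := gamma_le (κ := κ) (φ := φ) (hG' (1 / 2 + 1 / L) w (by linarith) (by linarith)) hφ
    have hwt := weight_le (w := w) hL hκ hκ1 hlogk
    set lw := Real.log (3 + |w|) with hlw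
    set ga := Complex.Gamma s with hga
    set P := (1 + |w|) ^ (2 / L) with hP
    set E := Real.exp (-(κ * |w|)) with hE
    have hP0 : 0 ≤ P := by positivity
    have hE0 : 0 < E := Real.exp_pos _
    set X := ‖deriv riemannZeta s‖ ^ 2 with hX
    set Y := ‖deriv (deriv riemannZeta) s‖ ^ 2 with hY
    set Z := ‖riemannZeta s‖ ^ 2 with hZdef
    have hX0 : 0 ≤ X := by positivity
    have hY0 : 0 ≤ Y := by positivity
    have hZ0 : 0 ≤ Z := by positivity
    have hwt2 : P * E ≤ 144 * Real.exp 6 * L ^ 2 := by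
      refine le_trans ?_ hwt
      have h1 : 1 ≤ lw ^ 2 := one_le_pow₀ hlog1
      have h2 : 0 ≤ P * E := by positivity
      calc P * E = 1 * (P * E) := (one_mul _).symm
        _ ≤ lw ^ 2 * (P * E) := by gcongr
        _ = _ := by ring
    have hcr1 : (1 : ℝ) ≤ (1 + CR) ^ 2 := one_le_pow₀ (by linarith)
    set a1 : ℝ := 4 * (1 + A ^ 2 + B ^ 2) with ha1
    have ha10 : 0 ≤ a1 := by positivity
    set W : ℝ := 144 * Real.exp 6 * L ^ 2 with hW
    have hW0 : 0 ≤ W := by positivity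
    calc ‖DF A B s * ga‖ ^ 2 * Real.exp (2 * φ * w)
        = ‖DF A B s‖ ^ 2 * (‖ga‖ ^ 2 * Real.exp (2 * φ * w)) := by
          rw [norm_mul, mul_pow]; ring
      _ ≤ (a1 * (((1 + CR) * lw * L) ^ 2 * X + Y + Z)) * (CG ^ 2 * P * E * E) := by
          gcongr
      _ = a1 * CG ^ 2 * E * ((1 + CR) ^ 2 * L ^ 2 * X * (lw ^ 2 * P * E) +
            (Y + Z) * (P * E)) := by ring
      _ ≤ a1 * CG ^ 2 * E * ((1 + CR) ^ 2 * L ^ 2 * X * W + (Y + Z) * W) := by
          gcongr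
      _ ≤ a1 * CG ^ 2 * E * ((1 + CR) ^ 2 * L ^ 2 * X * W + (Y + Z) * ((1 + CR) ^ 2 * W)) := by
          gcongr
          nlinarith
      _ = K * L ^ 4 * (X * E) + K * L ^ 2 * (Y * E) + K * L ^ 2 * (Z * E) := by
          rw [hK, hW, ha1]; ring
  -- the lower integral
  have hmeas : ∀ g : ℂ → ℂ, DifferentiableOn ℂ g (ST 0 1) → Measurable (fun w : ℝ =>
      ENNReal.ofReal (‖g (((1 / 2 + 1 / L : ℝ) : ℂ) + w * I)‖ ^ 2 * Real.exp (-(κ * |w|)))) := by
    intro g hg
    refine ENNReal.measurable_ofReal.comp (Continuous.measurable ?_)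
    refine Continuous.mul ((continuous_norm.comp (hg.continuousOn.comp_continuous
      (by fun_prop) (fun w => ?_))).pow 2) (by fun_prop)
    constructor
    · rw [hre w]; linarith
    · rw [hre w]; linarith
  have hlint : ∫⁻ w : ℝ, ENNReal.ofReal (‖D (((1 / 2 + 1 / L : ℝ) : ℂ) + w * I) *
      Complex.Gamma (((1 / 2 + 1 / L : ℝ) : ℂ) + w * I)‖ ^ 2 * Real.exp (2 * φ * w)) ≤
      ENNReal.ofReal (K * CZ * 9 * L ^ 7 / κ) := by
    calc _ ≤ ∫⁻ w : ℝ, (ENNReal.ofReal (K * L ^ 4) *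
            ENNReal.ofReal (‖deriv riemannZeta (((1 / 2 + 1 / L : ℝ) : ℂ) + w * I)‖ ^ 2 *
              Real.exp (-(κ * |w|))) +
          ENNReal.ofReal (K * L ^ 2) *
            ENNReal.ofReal (‖deriv (deriv riemannZeta) (((1 / 2 + 1 / L : ℝ) : ℂ) + w * I)‖ ^ 2 *
              Real.exp (-(κ * |w|))) +
          ENNReal.ofReal (K * L ^ 2) *
            ENNReal.ofReal (‖riemannZeta (((1 / 2 + 1 / L : ℝ) : ℂ) + w * I)‖ ^ 2 *
              Real.exp (-(κ * |w|)))) := by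
          refine lintegral_mono (fun w => ?_)
          rw [← ENNReal.ofReal_mul (by positivity), ← ENNReal.ofReal_mul (by positivity),
            ← ENNReal.ofReal_mul (by positivity), ← ENNReal.ofReal_add (by positivity)
              (by positivity), ← ENNReal.ofReal_add (by positivity) (by positivity)]
          exact ENNReal.ofReal_le_ofReal (hpt w)
      _ = ENNReal.ofReal (K * L ^ 4) * QM (deriv riemannZeta) κ (1 / 2 + 1 / L) +
          ENNReal.ofReal (K * L ^ 2) * QM (deriv (deriv riemannZeta)) κ (1 / 2 + 1 / L) +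
          ENNReal.ofReal (K * L ^ 2) * QM riemannZeta κ (1 / 2 + 1 / L) := by
          rw [lintegral_add_left, lintegral_add_left, lintegral_const_mul _ (hmeas _ dzeta_diff),
            lintegral_const_mul _ (hmeas _ ddzeta_diff), lintegral_const_mul _ (hmeas _ zeta_diff)]
          · rfl
          · exact (hmeas _ dzeta_diff).const_mul _
          · exact ((hmeas _ dzeta_diff).const_mul _).add ((hmeas _ ddzeta_diff).const_mul _)
      _ ≤ ENNReal.ofReal (K * L ^ 4) * ENNReal.ofReal (CZ * L ^ 2 * Real.log (3 / κ) / κ) +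
          ENNReal.ofReal (K * L ^ 2) * ENNReal.ofReal (CZ * L ^ 4 * Real.log (3 / κ) / κ) +
          ENNReal.ofReal (K * L ^ 2) * ENNReal.ofReal (CZ * Real.log (3 / κ) / κ) := by
          gcongr
      _ = ENNReal.ofReal (K * L ^ 4 * (CZ * L ^ 2 * Real.log (3 / κ) / κ) +
          K * L ^ 2 * (CZ * L ^ 4 * Real.log (3 / κ) / κ) +
          K * L ^ 2 * (CZ * Real.log (3 / κ) / κ)) := by
          have hl0 : 0 ≤ Real.log (3 / κ) := Real.log_nonneg (by rw [le_div_iff₀ hκ]; linarith)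
          rw [← ENNReal.ofReal_mul (by positivity), ← ENNReal.ofReal_mul (by positivity),
            ← ENNReal.ofReal_mul (by positivity), ← ENNReal.ofReal_add (by positivity)
              (by positivity), ← ENNReal.ofReal_add (by positivity) (by positivity)]
      _ ≤ ENNReal.ofReal (K * CZ * 9 * L ^ 7 / κ) := by
          refine ENNReal.ofReal_le_ofReal ?_
          have e1 : K * L ^ 4 * (CZ * L ^ 2 * Real.log (3 / κ) / κ) +
              K * L ^ 2 * (CZ * L ^ 4 * Real.log (3 / κ) / κ) +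
              K * L ^ 2 * (CZ * Real.log (3 / κ) / κ) =
              (K * CZ / κ) * ((2 * L ^ 6 + L ^ 2) * Real.log (3 / κ)) := by ring
          have e2 : K * CZ * 9 * L ^ 7 / κ = (K * CZ / κ) * (9 * L ^ 7) := by ring
          rw [e1, e2]
          refine mul_le_mul_of_nonneg_left ?_ (by positivity)
          have h26 : L ^ 2 ≤ L ^ 6 := pow_le_pow_right₀ (by linarith) (by norm_num)
          have hl0 : 0 ≤ Real.log (3 / κ) := Real.log_nonneg (by rw [le_div_iff₀ hκ]; linarith)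
          calc (2 * L ^ 6 + L ^ 2) * Real.log (3 / κ) ≤ (2 * L ^ 6 + L ^ 6) * (3 * L) := by gcongr
            _ = 9 * L ^ 7 := by ring
  have hcont : Continuous (fun w : ℝ => ‖D (((1 / 2 + 1 / L : ℝ) : ℂ) + w * I) *
      Complex.Gamma (((1 / 2 + 1 / L : ℝ) : ℂ) + w * I)‖ ^ 2 * Real.exp (2 * φ * w)) := by
    refine Continuous.mul ((continuous_norm.comp (Continuous.mul ?_ ?_)).pow 2) (by fun_prop)
    · refine hdiff.continuousOn.comp_continuous (by fun_prop) (fun w => ?_)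
      show 1 / 2 < (((1 / 2 + 1 / L : ℝ) : ℂ) + w * I).re
      rw [hre w]; linarith
    · rw [continuous_iff_continuousAt]
      intro w
      refine ContinuousAt.comp (f := fun w : ℝ => (((1 / 2 + 1 / L : ℝ) : ℂ) + w * I)) ?_
        (by fun_prop : Continuous (fun w : ℝ => (((1 / 2 + 1 / L : ℝ) : ℂ) + w * I))).continuousAt
      refine (Complex.differentiableAt_Gamma _ ?_).continuousAt
      intro m hm
      have := congrArg Complex.re hm
      rw [hre w] at this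
      simp only [Complex.neg_re, Complex.natCast_re] at this
      have hm0 : (0 : ℝ) ≤ m := Nat.cast_nonneg m
      linarith
  have hnn : ∀ w : ℝ, 0 ≤ ‖D (((1 / 2 + 1 / L : ℝ) : ℂ) + w * I) *
      Complex.Gamma (((1 / 2 + 1 / L : ℝ) : ℂ) + w * I)‖ ^ 2 * Real.exp (2 * φ * w) :=
    fun w => by positivity
  have hint : Integrable (fun w : ℝ => ‖D (((1 / 2 + 1 / L : ℝ) : ℂ) + w * I) *
      Complex.Gamma (((1 / 2 + 1 / L : ℝ) : ℂ) + w * I)‖ ^ 2 * Real.exp (2 * φ * w)) := by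
    refine ⟨hcont.aestronglyMeasurable, ?_⟩
    rw [hasFiniteIntegral_iff_ofReal (Eventually.of_forall hnn)]
    exact lt_of_le_of_lt hlint ENNReal.ofReal_lt_top
  refine ⟨hint, ?_⟩
  rw [← ofReal_integral_eq_lintegral_ofReal hint (Eventually.of_forall hnn)] at hlint
  rwa [ENNReal.ofReal_le_ofReal_iff (by positivity)] at hlint

end Pool.Agent.Lib.MP_6bc78b_nt.GP.H61
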